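import Mathlib

/-! Local factors of finite sets of linear forms (after `Pool.Agent.H362R2.R1.Loc`, here with nonzero slopes of both signs). -/

set_option autoImplicit false

namespace Pool.Agent.H37EF

open Finset Filter Topology

/-- number of residues mod `p` at which some form of `T` vanishes -/
def om (T : Finset (ℤ × ℤ)) (p : ℕ) : ℕ :=
  ((range p).filter (fun n : ℕ => ∃ f ∈ T, (p : ℤ) ∣ f.1 * (n : ℤ) + f.2)).card

/-- local factor -/
noncomputable def lc (T : Finset (ℤ × ℤ)) (p : ℕ) : ℝ := (1 - (om T p : ℝ) / p) / (1 - 1 / (p : ℝ)) ^ T.card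

/-- the constant of Hardy-Littlewood and Bateman-Horn -/
noncomputable def BH (T : Finset (ℤ × ℤ)) : ℝ := ∏' p : Nat.Primes, lc T p

lemma root_unique {p : ℕ} (hp : p.Prime) {a b : ℤ} (h : IsCoprime a b) {n m : ℕ} (hn : n < p) (hm : m < p)
    (h1 : (p : ℤ) ∣ a * n + b) (h2 : (p : ℤ) ∣ a * m + b) : n = m := by
  have hpz : Prime (p : ℤ) := Nat.prime_iff_prime_int.1 hp
  have h3 : (p : ℤ) ∣ a * ((n : ℤ) - m) := by
    have := dvd_sub h1 h2
    have e : a * (n : ℤ) + b - (a * m + b) = a * ((n : ℤ) - m) := by ring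
    rwa [e] at this
  rcases hpz.dvd_or_dvd h3 with h4 | h4
  · exfalso
    have h5 : (p : ℤ) ∣ b := by
      have := dvd_sub h1 (Dvd.dvd.mul_right h4 (n : ℤ))
      rwa [add_sub_cancel_left] at this
    exact hpz.not_isUnit (h.isUnit_of_dvd' h4 h5)
  · have h5 : (n : ℤ) ≡ m [ZMOD p] := (Int.modEq_iff_dvd.2 (by
      have := (dvd_neg.2 h4)
      rwa [neg_sub] at this))
    have h6 : n ≡ m [MOD p] := (Int.natCast_modEq_iff).1 h5
    exact Nat.ModEq.eq_of_lt_of_lt h6 hn hm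

lemma root_exists {p : ℕ} (hp : p.Prime) {a : ℤ} (b : ℤ) (ha : ¬ (p : ℤ) ∣ a) : ∃ n : ℕ, n < p ∧ (p : ℤ) ∣ a * n + b := by
  have hpz : Prime (p : ℤ) := Nat.prime_iff_prime_int.1 hp
  have hco : IsCoprime (p : ℤ) a := (Prime.coprime_iff_not_dvd hpz).2 ha
  obtain ⟨u, v, huv⟩ := hco
  have hp0 : (0 : ℤ) < p := by exact_mod_cast hp.pos
  have hnn : 0 ≤ (-(b * v)) % (p : ℤ) := Int.emod_nonneg _ hp0.ne'
  refine ⟨((-(b * v)) % (p : ℤ)).toNat, ?_, ?_⟩
  · have := Int.emod_lt_of_pos (-(b * v)) hp0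
    omega
  · rw [Int.toNat_of_nonneg hnn]
    have h1 : (p : ℤ) ∣ (-(b * v)) % (p : ℤ) - (-(b * v)) := by
      have := Int.emod_add_mul_ediv (-(b * v)) (p : ℤ)
      refine ⟨-((-(b * v)) / (p : ℤ)), ?_⟩
      linarith
    have h2 : a * ((-(b * v)) % (p : ℤ)) + b = a * ((-(b * v)) % (p : ℤ) - (-(b * v))) + b * (u * p) := by
      have : b = b * (u * p + v * a) := by rw [huv, mul_one]
      calc a * ((-(b * v)) % (p : ℤ)) + b = a * ((-(b * v)) % (p : ℤ)) + b * (u * p + v * a) := by rw [huv, mul_one]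
        _ = _ := by ring
    rw [h2]
    exact dvd_add (Dvd.dvd.mul_left h1 _) ⟨b * u, by ring⟩

lemma om_le (T : Finset (ℤ × ℤ)) {p : ℕ} (hp : p.Prime) (hT : ∀ f ∈ T, IsCoprime f.1 f.2) : om T p ≤ T.card := by
  classical
  have h1 : (range p).filter (fun n : ℕ => ∃ f ∈ T, (p : ℤ) ∣ f.1 * (n : ℤ) + f.2) ⊆
      T.biUnion (fun f => (range p).filter (fun n : ℕ => (p : ℤ) ∣ f.1 * (n : ℤ) + f.2)) := by
    intro n hn
    rw [mem_filter] at hn
    obtain ⟨f, hf, hd⟩ := hn.2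
    rw [mem_biUnion]
    exact ⟨f, hf, mem_filter.2 ⟨hn.1, hd⟩⟩
  refine (card_le_card h1).trans (card_biUnion_le.trans ?_)
  have h2 : ∀ f ∈ T, ((range p).filter (fun n : ℕ => (p : ℤ) ∣ f.1 * (n : ℤ) + f.2)).card ≤ 1 := by
    intro f hf
    rw [card_le_one]
    intro n hn m hm
    rw [mem_filter, mem_range] at hn hm
    exact root_unique hp (hT f hf) hn.1 hm.1 hn.2 hm.2
  refine (sum_le_card_nsmul _ _ _ h2).trans ?_
  simp

/-- the discriminant -/
def DT (T : Finset (ℤ × ℤ)) : ℤ := (∏ f ∈ T, f.1) * ∏ x ∈ T.offDiag, (x.1.1 * x.2.2 - x.1.2 * x.2.1)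

lemma le_om (T : Finset (ℤ × ℤ)) {p : ℕ} (hp : p.Prime) (hD : ¬ (p : ℤ) ∣ DT T) : T.card ≤ om T p := by
  classical
  have h1 : ∀ f : T, ∃ n : ℕ, n < p ∧ (p : ℤ) ∣ f.1.1 * n + f.1.2 := by
    intro f
    apply root_exists hp
    intro h
    apply hD
    unfold DT
    apply Dvd.dvd.mul_right
    exact h.trans (dvd_prod_of_mem (fun f : ℤ × ℤ => f.1) f.2)
  choose r hr using h1
  unfold om
  rw [← card_attach]
  refine card_le_card_of_injOn r ?_ ?_
  · intro f _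
    rw [mem_coe, mem_filter, mem_range]
    exact ⟨(hr f).1, f.1, f.2, (hr f).2⟩
  · intro f _ g _ hfg
    by_contra hne
    apply hD
    have hne' : f.1 ≠ g.1 := fun h => hne (Subtype.ext h)
    have h2 := (hr f).2
    have h3 := (hr g).2
    rw [← hfg] at h3
    have h4 : (p : ℤ) ∣ f.1.1 * g.1.2 - f.1.2 * g.1.1 := by
      have := dvd_sub (Dvd.dvd.mul_left h3 f.1.1) (Dvd.dvd.mul_left h2 g.1.1)
      have e : f.1.1 * (g.1.1 * ((r f : ℕ) : ℤ) + g.1.2) - g.1.1 * (f.1.1 * ((r f : ℕ) : ℤ) + f.1.2) =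
          f.1.1 * g.1.2 - f.1.2 * g.1.1 := by ring
      rwa [e] at this
    unfold DT
    apply Dvd.dvd.mul_left
    exact h4.trans (dvd_prod_of_mem (fun x : (ℤ × ℤ) × (ℤ × ℤ) => x.1.1 * x.2.2 - x.1.2 * x.2.1)
      (mem_offDiag.2 ⟨f.2, g.2, hne'⟩ : (f.1, g.1) ∈ T.offDiag))

lemma lc_ge (T : Finset (ℤ × ℤ)) {p : ℕ} (hp : p.Prime) (hT : ∀ f ∈ T, IsCoprime f.1 f.2) (hTp : T.card ≤ p) :
    1 - (T.card : ℝ) ^ 2 * ((p : ℝ) ^ 2)⁻¹ ≤ lc T p := by
  unfold lc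
  set r := T.card with hr
  have hp0 : (0:ℝ) < p := by exact_mod_cast hp.pos
  have hp2 : (2:ℝ) ≤ p := by exact_mod_cast hp.two_le
  set x : ℝ := 1 / p with hx
  have hx0 : 0 < x := by positivity
  have hx1 : x ≤ 1 / 2 := one_div_le_one_div_of_le (by norm_num) hp2
  have hrx : (r:ℝ) * x ≤ 1 := by
    rw [hx, mul_one_div, div_le_one hp0]
    exact_mod_cast hTp
  have h1 : (1 - x) ^ r * (1 + r * x) ≤ 1 := by
    have h2 : 1 + (r:ℝ) * x ≤ (1 + x) ^ r := one_add_mul_le_pow (by linarith) r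
    calc (1 - x) ^ r * (1 + r * x) ≤ (1 - x) ^ r * (1 + x) ^ r :=
          mul_le_mul_of_nonneg_left h2 (pow_nonneg (by linarith) _)
      _ = ((1 - x) * (1 + x)) ^ r := by rw [mul_pow]
      _ ≤ 1 := pow_le_one₀ (mul_nonneg (by linarith) (by linarith)) (by nlinarith)
  have h2 : 0 < (1 - x) ^ r := pow_pos (by linarith) _
  rw [le_div_iff₀ h2]
  have h3 : (om T p : ℝ) / p ≤ r * x := by
    rw [hx, mul_one_div]
    apply div_le_div_of_nonneg_right _ hp0.le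
    exact_mod_cast om_le T hp hT
  have h4 : 1 - (r:ℝ) ^ 2 * ((p : ℝ) ^ 2)⁻¹ = (1 - r * x) * (1 + r * x) := by
    rw [hx]; field_simp; ring
  rw [h4]
  calc (1 - r * x) * (1 + r * x) * (1 - x) ^ r = (1 - r * x) * ((1 - x) ^ r * (1 + r * x)) := by ring
    _ ≤ (1 - r * x) * 1 := mul_le_mul_of_nonneg_left h1 (by linarith)
    _ ≤ 1 - (om T p : ℝ) / p := by linarith

lemma om_lt (T : Finset (ℤ × ℤ)) (p : ℕ) : om T p ≤ p := by
  unfold om
  refine (card_filter_le _ _).trans ?_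
  rw [card_range]

lemma lc_nonneg (T : Finset (ℤ × ℤ)) {p : ℕ} (hp : p.Prime) : 0 ≤ lc T p := by
  unfold lc
  have hp0 : (0:ℝ) < p := by exact_mod_cast hp.pos
  have hp2 : (2:ℝ) ≤ p := by exact_mod_cast hp.two_le
  have h1 : (1:ℝ) / p ≤ 1 / 2 := one_div_le_one_div_of_le (by norm_num) hp2
  apply div_nonneg
  · rw [sub_nonneg, div_le_one hp0]
    exact_mod_cast om_lt T p
  · exact pow_nonneg (by linarith) _

lemma lc_le_one (T : Finset (ℤ × ℤ)) {p : ℕ} (hp : p.Prime) (hD : ¬ (p : ℤ) ∣ DT T) : lc T p ≤ 1 := by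
  unfold lc
  have hp0 : (0:ℝ) < p := by exact_mod_cast hp.pos
  have hp2 : (2:ℝ) ≤ p := by exact_mod_cast hp.two_le
  have h1 : (1:ℝ) / p ≤ 1 / 2 := one_div_le_one_div_of_le (by norm_num) hp2
  have h2 : 0 < (1 - 1 / (p:ℝ)) ^ T.card := pow_pos (by linarith) _
  rw [div_le_one h2]
  have h3 := one_add_mul_le_pow (a := -(1 / (p:ℝ))) (by linarith) T.card
  have h4 : (T.card : ℝ) / p ≤ (om T p : ℝ) / p := by
    apply div_le_div_of_nonneg_right _ hp0.le
    exact_mod_cast le_om T hp hD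
  calc 1 - (om T p : ℝ) / p ≤ 1 - (T.card : ℝ) / p := by linarith
    _ = 1 + (T.card : ℝ) * -(1 / (p:ℝ)) := by ring
    _ ≤ (1 + -(1 / (p:ℝ))) ^ T.card := h3
    _ = _ := by ring_nf

lemma lc_le_exp (T : Finset (ℤ × ℤ)) {p : ℕ} (hp : p.Prime) : lc T p ≤ Real.exp (2 * T.card / p) := by
  unfold lc
  have hp0 : (0:ℝ) < p := by exact_mod_cast hp.pos
  have hp2 : (2:ℝ) ≤ p := by exact_mod_cast hp.two_le
  have h1 : (1:ℝ) / p ≤ 1 / 2 := one_div_le_one_div_of_le (by norm_num) hp2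
  have hx0 : 0 < (1:ℝ) / p := by positivity
  have h2 : 0 < (1 - 1 / (p:ℝ)) ^ T.card := pow_pos (by linarith) _
  rw [div_le_iff₀ h2]
  have h3 : 1 ≤ Real.exp (2 / p) * (1 - 1 / (p:ℝ)) := by
    have h4 : 1 + 2 / (p:ℝ) ≤ Real.exp (2 / p) := by
      have := Real.add_one_le_exp (2 / (p:ℝ)); linarith
    have h5 : 1 ≤ (1 + 2 / (p:ℝ)) * (1 - 1 / (p:ℝ)) := by
      have e : (2:ℝ) / p = 2 * (1 / p) := by ring
      rw [e]
      nlinarith
    exact h5.trans (mul_le_mul_of_nonneg_right h4 (by linarith))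
  have h6 : Real.exp (2 * T.card / p) * (1 - 1 / (p:ℝ)) ^ T.card = (Real.exp (2 / p) * (1 - 1 / (p:ℝ))) ^ T.card := by
    rw [mul_pow, ← Real.exp_nat_mul]
    congr 2
    ring
  rw [h6]
  have h7 : 0 ≤ (om T p : ℝ) / p := by positivity
  calc 1 - (om T p : ℝ) / p ≤ 1 := by linarith
    _ ≤ _ := one_le_pow₀ h3

/-- the forms are pairwise not proportional and not constant -/
def ND (T : Finset (ℤ × ℤ)) : Prop := DT T ≠ 0

lemma ND_of (T : Finset (ℤ × ℤ)) (h0 : ∀ f ∈ T, f.1 ≠ 0)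
    (h1 : ∀ f ∈ T, ∀ g ∈ T, f ≠ g → f.1 * g.2 ≠ f.2 * g.1) : ND T := by
  unfold ND DT
  apply mul_ne_zero
  · rw [prod_ne_zero_iff]
    exact fun f hf => h0 f hf
  · rw [prod_ne_zero_iff]
    rintro ⟨f, g⟩ hx h
    rw [mem_offDiag] at hx
    obtain ⟨hf, hg, hne⟩ := hx
    simp only at hf hg hne h
    exact h1 f hf g hg hne (by linarith)

/-- number of large prime factors -/
lemma big_primes (D : ℤ) (hD : D ≠ 0) (z : ℕ) (hz : 2 ≤ z) (S : Finset ℕ) (hS : ∀ p ∈ S, p.Prime ∧ z < p ∧ (p : ℤ) ∣ D) :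
    ∑ p ∈ S, (1 : ℝ) / p ≤ Real.log |(D : ℝ)| / (z * Real.log z) := by
  have hz0 : (0:ℝ) < z := by exact_mod_cast (by omega : 0 < z)
  have hlz : 0 < Real.log z := Real.log_pos (by exact_mod_cast (by omega : 1 < z))
  have h1 : ((∏ p ∈ S, p : ℕ) : ℤ) ∣ D := by
    have h2 : ∏ p ∈ S, p ∣ D.natAbs := by
      apply Finset.prod_primes_dvd
      · intro p hp
        exact (Nat.prime_iff.1 (hS p hp).1)
      · intro p hp
        exact Int.natCast_dvd.1 (hS p hp).2.2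
    exact Int.natCast_dvd.2 h2
  have h3 : ((∏ p ∈ S, p : ℕ) : ℝ) ≤ |(D : ℝ)| := by
    have h4 := Int.le_of_dvd (abs_pos.2 hD) ((dvd_abs _ _).2 h1)
    have h5 : (((∏ p ∈ S, p : ℕ) : ℤ) : ℝ) ≤ ((|D| : ℤ) : ℝ) := by exact_mod_cast h4
    push_cast at h5 ⊢
    exact h5
  have h6 : (S.card : ℝ) * Real.log z ≤ Real.log |(D : ℝ)| := by
    have h7 : (z : ℝ) ^ S.card ≤ ((∏ p ∈ S, p : ℕ) : ℝ) := by
      push_cast
      rw [← prod_const]
      apply Finset.prod_le_prod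
      · intro p _; exact hz0.le
      · intro p hp
        exact_mod_cast (hS p hp).2.1.le
    rw [← Real.log_pow]
    exact Real.log_le_log (by positivity) (h7.trans h3)
  calc ∑ p ∈ S, (1 : ℝ) / p ≤ ∑ p ∈ S, (1 : ℝ) / z := by
        apply sum_le_sum
        intro p hp
        apply one_div_le_one_div_of_le hz0
        exact_mod_cast (hS p hp).2.1.le
    _ = S.card / z := by rw [sum_const, nsmul_eq_mul, mul_one_div]
    _ ≤ (Real.log |(D : ℝ)| / Real.log z) / z := by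
        apply div_le_div_of_nonneg_right _ hz0.le
        rw [le_div_iff₀ hlz]
        exact h6
    _ = _ := by rw [div_div, mul_comm]

lemma log_DT (T : Finset (ℤ × ℤ)) (H : ℝ) (hH : 1 ≤ H) (h0 : ∀ f ∈ T, |(f.1 : ℝ)| ≤ H ∧ |(f.2 : ℝ)| ≤ H) :
    |(DT T : ℝ)| ≤ (2 * H ^ 2) ^ (T.card + T.card * T.card) := by
  have hH2 : 1 ≤ 2 * H ^ 2 := by nlinarith
  have hHH : H ≤ 2 * H ^ 2 := by nlinarith
  unfold DT
  push_cast
  rw [abs_mul, pow_add, Finset.abs_prod, Finset.abs_prod]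
  apply mul_le_mul
  · calc ∏ f ∈ T, |(f.1 : ℝ)| ≤ ∏ f ∈ T, (2 * H ^ 2) := by
          apply Finset.prod_le_prod
          · intro f _; exact abs_nonneg _
          · intro f hf; exact (h0 f hf).1.trans hHH
      _ = _ := by rw [prod_const]
  · calc ∏ x ∈ T.offDiag, |((x.1.1 : ℝ) * x.2.2 - x.1.2 * x.2.1)| ≤ ∏ x ∈ T.offDiag, (2 * H ^ 2) := by
          apply Finset.prod_le_prod
          · intro x _; exact abs_nonneg _
          · intro x hx
            rw [mem_offDiag] at hx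
            have a1 := h0 x.1 hx.1
            have a2 := h0 x.2 hx.2.1
            calc |((x.1.1 : ℝ) * x.2.2 - x.1.2 * x.2.1)| ≤ |(x.1.1 : ℝ) * x.2.2| + |(x.1.2 : ℝ) * x.2.1| := abs_sub _ _
              _ = |(x.1.1 : ℝ)| * |(x.2.2 : ℝ)| + |(x.1.2 : ℝ)| * |(x.2.1 : ℝ)| := by rw [abs_mul, abs_mul]
              _ ≤ H * H + H * H := by
                  apply add_le_add
                  · exact mul_le_mul a1.1 a2.2 (abs_nonneg _) (by linarith)
                  · exact mul_le_mul a1.2 a2.1 (abs_nonneg _) (by linarith)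
              _ = _ := by ring
      _ = (2 * H ^ 2) ^ T.offDiag.card := by rw [prod_const]
      _ ≤ _ := by
          apply pow_le_pow_right₀ hH2
          rw [offDiag_card]
          exact Nat.sub_le _ _
  · exact prod_nonneg fun x _ => abs_nonneg _
  · positivity

end Pool.Agent.H37EF
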