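import Mathlib
import Pool.Agent.H37EF.Loc

/-! The classes of linear forms without small prime factors: unordered sets of forms with all patterns of
primality. -/

set_option autoImplicit false

namespace Pool.Agent.H37EF

open Finset Filter Topology

/-- the conditions on a linear form at the scale `N` -/
def Adm (A N : ℕ) (f : ℤ × ℤ) : Prop :=
  f.1 ≠ 0 ∧ |f.1| ≤ A ∧ |f.2| ≤ N ∧ IsCoprime f.1 f.2 ∧
    ∀ t : ℝ, (N : ℝ) / 16 ≤ t → t ≤ N / 2 → (N : ℝ) / 24 ≤ f.1 * t + f.2

/-- the proportion: `1 / 3` for pairs, `(5 / 18) ^ k` for `k + 1` forms -/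
noncomputable def share (k : ℕ) : ℝ := if k = 1 then 1 / 3 else (5 / 18) ^ k

lemma share_pos (k : ℕ) : 0 < share k := by
  unfold share
  split_ifs <;> positivity

lemma share_le (k : ℕ) : share k ≤ 1 := by
  unfold share
  split_ifs
  · norm_num
  · exact pow_le_one₀ (by norm_num) (by norm_num)

/-- the number of `1 ≤ n ≤ N` at which exactly the forms `f i` with `i ∈ J` take prime values -/
def patT {k : ℕ} (f : Fin (k + 1) → ℤ × ℤ) (J : Finset (Fin (k + 1))) (N : ℕ) : ℕ :=
  ((Icc 1 N).filter (fun n : ℕ => ∀ i, ((f i).1 * (n : ℤ) + (f i).2).toNat.Prime ↔ i ∈ J)).card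

open Classical in
/-- the tuples with all patterns -/
noncomputable def TupH (k : ℕ) (V : Finset (ℤ × ℤ)) (C N : ℕ) : Finset (Fin (k + 1) → ℤ × ℤ) :=
  (Fintype.piFinset (fun _ : Fin (k + 1) => V)).filter (fun f => Function.Injective f ∧
    ∀ J : Finset (Fin (k + 1)), (N : ℝ) / (Real.log N) ^ C ≤ (patT f J N : ℝ))

/-- the theorem on admissible families from the starting files -/
def StmH : Prop := ∀ (k : ℕ) (ε : ℝ), 0 < ε → ∃ z n₀ C : ℕ, ∀ A : ℕ,
    ∀ᶠ N : ℕ in atTop, ∀ V : Finset (ℤ × ℤ), (∀ f ∈ V, Adm A N f) →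
    (∀ p : ℕ, p ≤ z → p.Prime → ∃ r : ℤ, ∀ f ∈ V, ¬ (p : ℤ) ∣ f.1 * r + f.2) → n₀ ≤ V.card →
    (share k - ε) * (V.card : ℝ) ^ (k + 1) ≤ ((TupH k V C N).card : ℝ)

/-- the number of `1 ≤ n ≤ N` at which exactly the members of `J` are prime, among the members of `U` -/
noncomputable def pat (U J : Finset (ℤ × ℤ)) (N : ℕ) : ℕ :=
  ((Icc 1 N).filter (fun n : ℕ => ∀ f ∈ U, (f.1 * (n : ℤ) + f.2).toNat.Prime ↔ f ∈ J)).card

/-- all patterns occur often -/
def GoodP (C N : ℕ) (U : Finset (ℤ × ℤ)) : Prop :=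
  ∀ J ⊆ U, (N : ℝ) / (Real.log N) ^ C ≤ (pat U J N : ℝ)

open Classical in
theorem tup_le (k : ℕ) (V : Finset (ℤ × ℤ)) (C N : ℕ) :
    (TupH k V C N).card ≤ (k + 1).factorial * ((V.powersetCard (k + 1)).filter (GoodP C N)).card := by
  apply card_le_mul_card_image_of_maps_to (f := fun f : Fin (k + 1) → ℤ × ℤ => univ.image f)
  · intro f hf
    unfold TupH at hf
    rw [mem_filter, Fintype.mem_piFinset] at hf
    obtain ⟨hfV, hfi, hfp⟩ := hf
    rw [mem_filter, mem_powersetCard]
    refine ⟨⟨?_, ?_⟩, ?_⟩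
    · intro x hx
      obtain ⟨i, -, rfl⟩ := mem_image.1 hx
      exact hfV i
    · rw [card_image_of_injective _ hfi, card_univ, Fintype.card_fin]
    · intro J hJ
      refine (hfp (univ.filter (fun i => f i ∈ J))).trans (le_of_eq ?_)
      unfold patT pat
      congr 2
      apply filter_congr
      intro n _
      constructor
      · intro h x hx
        obtain ⟨i, -, rfl⟩ := mem_image.1 hx
        rw [h i, mem_filter]
        simp
      · intro h i
        rw [h (f i) (mem_image_of_mem _ (mem_univ _)), mem_filter]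
        simp
  · intro U hU
    rw [mem_filter, mem_powersetCard] at hU
    have h1 : Fintype.card (Fin (k + 1) ↪ U) = (k + 1).factorial := by
      rw [Fintype.card_embedding_eq, Fintype.card_coe, hU.1.2, Fintype.card_fin, Nat.descFactorial_self]
    rw [← h1, ← card_univ]
    have hmem : ∀ f ∈ (TupH k V C N).filter (fun f => univ.image f = U), ∀ i, f i ∈ U := by
      intro f hf i
      rw [mem_filter] at hf
      rw [← hf.2]
      exact mem_image_of_mem _ (mem_univ _)
    have hinj : ∀ f ∈ (TupH k V C N).filter (fun f => univ.image f = U), Function.Injective f := by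
      intro f hf
      rw [mem_filter] at hf
      have h2 := hf.1
      unfold TupH at h2
      rw [mem_filter] at h2
      exact h2.2.1
    apply card_le_card_of_injOn (fun f => if h : f ∈ (TupH k V C N).filter (fun f => univ.image f = U) then
      (⟨fun i => ⟨f i, hmem f h i⟩, fun i j hij => hinj f h (congrArg Subtype.val hij)⟩ : Fin (k + 1) ↪ U)
      else (Fintype.equivFinOfCardEq (by rw [Fintype.card_coe, hU.1.2]) : U ≃ Fin (k + 1)).symm.toEmbedding)
    · intro f _
      exact mem_coe.2 (mem_univ _)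
    · intro f hf g hg h
      rw [mem_coe] at hf hg
      beta_reduce at h
      rw [dif_pos hf, dif_pos hg] at h
      funext i
      have h2 := congrArg (fun e : Fin (k + 1) ↪ U => ((e i : U) : ℤ × ℤ)) h
      exact h2

open Classical in
/-- **the unordered sets with all patterns** -/
theorem clsH (hS : StmH) (k : ℕ) (ε : ℝ) (hε : 0 < ε) : ∃ n0 z0 C : ℕ, ∀ A : ℕ,
    ∀ᶠ N : ℕ in atTop, ∀ z : ℕ, z0 ≤ z → ∀ (V : Finset (ℤ × ℤ)) (n : ℕ), (∀ f ∈ V, Adm A N f) →
    (∀ f ∈ V, ∀ p ∈ (z + 1).primesBelow, ¬ (p : ℤ) ∣ f.1 * (n : ℤ) + f.2) → n0 ≤ V.card →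
    (share k - ε) * (V.card.choose (k + 1)) ≤ ((V.powersetCard (k + 1)).filter (GoodP C N)).card := by
  obtain ⟨z0, n0, C, h⟩ := hS k ε hε
  refine ⟨n0, z0, C, fun A => ?_⟩
  filter_upwards [h A] with N hN z hz V n hV hVn hcard
  have h1 := hN V hV (fun p hp hpp => ⟨n, fun f hf => hVn f hf p (Nat.mem_primesBelow.2 ⟨by omega, hpp⟩)⟩) hcard
  have h2 : ((TupH k V C N).card : ℝ) ≤
      ((k + 1).factorial : ℝ) * (((V.powersetCard (k + 1)).filter (GoodP C N)).card : ℝ) := by
    exact_mod_cast tup_le k V C N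
  have hf : (0 : ℝ) < ((k + 1).factorial : ℝ) := by exact_mod_cast Nat.factorial_pos _
  rcases le_or_gt (share k - ε) 0 with h0 | h0
  · exact le_trans (mul_nonpos_of_nonpos_of_nonneg h0 (Nat.cast_nonneg _)) (Nat.cast_nonneg _)
  · have h3 : ((V.card.choose (k + 1) : ℕ) : ℝ) ≤ (V.card : ℝ) ^ (k + 1) / (k + 1).factorial :=
      Nat.choose_le_pow_div (α := ℝ) (k + 1) V.card
    have h4 : (share k - ε) * (V.card.choose (k + 1)) ≤
        (share k - ε) * ((V.card : ℝ) ^ (k + 1) / (k + 1).factorial) :=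
      mul_le_mul_of_nonneg_left h3 h0.le
    refine h4.trans ?_
    rw [← mul_div_assoc, div_le_iff₀ hf]
    linarith

end Pool.Agent.H37EF
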