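import Mathlib
import Pool.Agent.H37EF.Loc

/-! Counting residues. -/

set_option autoImplicit false

namespace Pool.Agent.H37EF

open Finset

/-- the product of the primes up to `y` -/
noncomputable def WW (y : ℕ) : ℕ := ∏ p ∈ (y + 1).primesBelow, p

lemma WW_pos (y : ℕ) : 0 < WW y := prod_pos fun _ hp => (Nat.prime_of_mem_primesBelow hp).pos

lemma WW_factors (y : ℕ) : (WW y).primeFactors = (y + 1).primesBelow :=
  Nat.primeFactors_prod fun _ hp => Nat.prime_of_mem_primesBelow hp

lemma totient_WW (y : ℕ) :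
    (Nat.totient (WW y) : ℝ) = WW y * ∏ p ∈ (y + 1).primesBelow, (1 - 1 / (p : ℝ)) := by
  have := Nat.totient_eq_mul_prod_factors (WW y)
  rw [WW_factors] at this
  have h2 : ((Nat.totient (WW y) : ℚ) : ℝ) = ((WW y * ∏ p ∈ (y + 1).primesBelow, (1 - (p : ℚ)⁻¹) : ℚ) : ℝ) := by
    rw [this]
  push_cast at h2
  rw [h2]
  simp only [one_div]

/-- the density of the residues prime to the primes up to `y` -/
noncomputable def rho (y : ℕ) : ℝ := (Nat.totient (WW y) : ℝ) / WW y

lemma rho_pos (y : ℕ) : 0 < rho y := by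
  unfold rho
  have h1 : 0 < Nat.totient (WW y) := Nat.totient_pos.2 (WW_pos y)
  have h2 := WW_pos y
  positivity

lemma cnt_mul (m n : ℕ) (h : Nat.Coprime m n) (hm : 0 < m) (hn : 0 < n) (P Q : ℕ → Prop) [DecidablePred P] [DecidablePred Q]
    (hP : ∀ x, P (x % m) ↔ P x) (hQ : ∀ x, Q (x % n) ↔ Q x) :
    ((range (m * n)).filter (fun x => P x ∧ Q x)).card = ((range m).filter P).card * ((range n).filter Q).card := by
  rw [← card_product]
  apply card_nbij' (fun x => (x % m, x % n)) (fun q => (Nat.chineseRemainder h q.1 q.2 : ℕ))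
  · intro x hx
    rw [mem_coe, mem_filter] at hx
    rw [mem_coe, mem_product, mem_filter, mem_filter, mem_range, mem_range]
    exact ⟨⟨Nat.mod_lt _ hm, (hP x).2 hx.2.1⟩, ⟨Nat.mod_lt _ hn, (hQ x).2 hx.2.2⟩⟩
  · intro q hq
    rw [mem_coe, mem_product, mem_filter, mem_filter, mem_range, mem_range] at hq
    rw [mem_coe, mem_filter, mem_range]
    have h1 := (Nat.chineseRemainder h q.1 q.2).2
    refine ⟨Nat.chineseRemainder_lt_mul h q.1 q.2 hm.ne' hn.ne', ?_, ?_⟩
    · rw [← hP, h1.1, hP]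
      exact hq.1.2
    · rw [← hQ, h1.2, hQ]
      exact hq.2.2
  · intro x hx
    rw [mem_coe, mem_filter, mem_range] at hx
    have h1 := Nat.chineseRemainder_modEq_unique h (a := x % m) (b := x % n) (z := x) (Nat.mod_modEq x m).symm (Nat.mod_modEq x n).symm
    have h2 := Nat.ModEq.eq_of_lt_of_lt h1 hx.1 (Nat.chineseRemainder_lt_mul h (x % m) (x % n) hm.ne' hn.ne')
    exact h2.symm
  · intro q hq
    rw [mem_coe, mem_product, mem_filter, mem_filter, mem_range, mem_range] at hq
    have h1 := (Nat.chineseRemainder h q.1 q.2).2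
    apply Prod.ext
    · have := h1.1
      rw [Nat.ModEq, Nat.mod_eq_of_lt hq.1.1] at this
      exact this
    · have := h1.2
      rw [Nat.ModEq, Nat.mod_eq_of_lt hq.2.1] at this
      exact this

lemma cnt_prod (S : Finset ℕ) (hS : ∀ p ∈ S, p.Prime) (P : ℕ → ℕ → Prop) [∀ p, DecidablePred (P p)]
    (hP : ∀ p ∈ S, ∀ x, P p (x % p) ↔ P p x) :
    ((range (∏ p ∈ S, p)).filter (fun x => ∀ p ∈ S, P p x)).card = ∏ p ∈ S, ((range p).filter (P p)).card := by
  classical
  induction S using Finset.induction_on with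
  | empty => simp
  | insert q S hq ih =>
    have ih' := ih (fun p hp => hS p (mem_insert_of_mem hp)) (fun p hp => hP p (mem_insert_of_mem hp))
    rw [prod_insert hq, prod_insert hq, ← ih']
    have hco : Nat.Coprime q (∏ p ∈ S, p) := by
      apply Nat.Coprime.prod_right
      intro p hp
      rw [Nat.coprime_primes (hS q (mem_insert_self _ _)) (hS p (mem_insert_of_mem hp))]
      rintro rfl
      exact hq hp
    have hpos : 0 < ∏ p ∈ S, p := prod_pos fun p hp => (hS p (mem_insert_of_mem hp)).pos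
    rw [← cnt_mul q (∏ p ∈ S, p) hco (hS q (mem_insert_self _ _)).pos hpos (P q) (fun x => ∀ p ∈ S, P p x)
      (hP q (mem_insert_self _ _)) (by
        intro x
        have h1 : ∀ p ∈ S, (P p (x % ∏ p ∈ S, p) ↔ P p x) := by
          intro p hp
          rw [← hP p (mem_insert_of_mem hp) (x % ∏ p ∈ S, p), ← hP p (mem_insert_of_mem hp) x,
            Nat.mod_mod_of_dvd _ (dvd_prod_of_mem _ hp)]
        constructor
        · intro h p hp
          exact (h1 p hp).1 (h p hp)
        · intro h p hp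
          exact (h1 p hp).2 (h p hp))]
    congr 1
    apply filter_congr
    intro x _
    constructor
    · intro h
      exact ⟨h q (mem_insert_self _ _), fun p hp => h p (mem_insert_of_mem hp)⟩
    · rintro ⟨h1, h2⟩ p hp
      rw [mem_insert] at hp
      rcases hp with rfl | hp
      · exact h1
      · exact h2 p hp

/-- the forms of `F` without small prime factor at `n` -/
def sv (z : ℕ) (F : Finset (ℤ × ℤ)) (n : ℕ) : Finset (ℤ × ℤ) :=
  F.filter (fun f => ∀ p ∈ (z + 1).primesBelow, ¬ (p : ℤ) ∣ f.1 * (n : ℤ) + f.2)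

/-- the number of residues at which all forms of `T` have no small prime factor -/
noncomputable def gz (z : ℕ) (T : Finset (ℤ × ℤ)) : ℕ :=
  ((range (WW z)).filter (fun n : ℕ => ∀ p ∈ (z + 1).primesBelow, ∀ f ∈ T, ¬ (p : ℤ) ∣ f.1 * (n : ℤ) + f.2)).card

lemma gz_eq (z : ℕ) (T : Finset (ℤ × ℤ)) : gz z T = ∏ p ∈ (z + 1).primesBelow, (p - om T p) := by
  unfold gz WW
  rw [cnt_prod ((z + 1).primesBelow) (fun p hp => Nat.prime_of_mem_primesBelow hp)
    (fun p n => ∀ f ∈ T, ¬ (p : ℤ) ∣ f.1 * (n : ℤ) + f.2) ?_]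
  · apply prod_congr rfl
    intro p _
    unfold om
    have h1 := card_filter_add_card_filter_not (s := range p) (fun n : ℕ => ∃ f ∈ T, (p : ℤ) ∣ f.1 * (n : ℤ) + f.2)
    rw [card_range] at h1
    have h2 : (range p).filter (fun n : ℕ => ∀ f ∈ T, ¬ (p : ℤ) ∣ f.1 * (n : ℤ) + f.2) =
        (range p).filter (fun n : ℕ => ¬ ∃ f ∈ T, (p : ℤ) ∣ f.1 * (n : ℤ) + f.2) := by
      apply filter_congr
      intro n _
      push Not
      rfl
    rw [h2]
    omega
  · intro p _ x
    have h1 : ∀ f : ℤ × ℤ, ((p : ℤ) ∣ f.1 * ((x % p : ℕ) : ℤ) + f.2 ↔ (p : ℤ) ∣ f.1 * (x : ℤ) + f.2) := by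
      intro f
      have h2 : (p : ℤ) ∣ (f.1 * (x : ℤ) + f.2) - (f.1 * ((x % p : ℕ) : ℤ) + f.2) := by
        have h3 : (f.1 * (x : ℤ) + f.2) - (f.1 * ((x % p : ℕ) : ℤ) + f.2) = f.1 * ((x : ℤ) - ((x % p : ℕ) : ℤ)) := by ring
        rw [h3]
        apply Dvd.dvd.mul_left
        push_cast
        exact Int.dvd_self_sub_emod
      constructor
      · intro h
        have := dvd_add h2 h
        rwa [sub_add_cancel] at this
      · intro h
        have := dvd_sub h h2
        rwa [sub_sub_cancel] at this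
    constructor
    · intro h f hf hd
      exact h f hf ((h1 f).2 hd)
    · intro h f hf hd
      exact h f hf ((h1 f).1 hd)

lemma Ez_eq (z : ℕ) (T : Finset (ℤ × ℤ)) :
    ∏ p ∈ (z + 1).primesBelow, lc T p = (1 / rho z) ^ T.card / WW z * (gz z T : ℝ) := by
  rw [gz_eq]
  have hpr : ∀ p ∈ (z + 1).primesBelow, (0:ℝ) < (p : ℝ) ∧ (0:ℝ) < 1 - 1 / (p : ℝ) := by
    intro p hp
    have h1 := Nat.prime_of_mem_primesBelow hp
    have h2 : (2:ℝ) ≤ p := by exact_mod_cast h1.two_le
    have h3 : (1:ℝ) / p ≤ 1 / 2 := one_div_le_one_div_of_le (by norm_num) h2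
    exact ⟨by linarith, by linarith⟩
  have hrho : rho z = ∏ p ∈ (z + 1).primesBelow, (1 - 1 / (p : ℝ)) := by
    unfold rho
    rw [totient_WW]
    have : (WW z : ℝ) ≠ 0 := by exact_mod_cast (WW_pos z).ne'
    field_simp
  have hW : (WW z : ℝ) = ∏ p ∈ (z + 1).primesBelow, (p : ℝ) := by
    unfold WW
    push_cast
    rfl
  rw [hrho, hW, one_div_pow]
  push_cast
  rw [← Finset.prod_pow, one_div, ← Finset.prod_inv_distrib, ← Finset.prod_div_distrib, ← Finset.prod_mul_distrib]
  apply prod_congr rfl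
  intro p hp
  obtain ⟨h1, h2⟩ := hpr p hp
  unfold lc
  rw [Nat.cast_sub (om_lt T p)]
  have h3 : (1 - 1 / (p : ℝ)) ^ T.card ≠ 0 := (pow_pos h2 _).ne'
  field_simp

lemma sum_sv (z : ℕ) (F : Finset (ℤ × ℤ)) (hF : ∀ f ∈ F, IsCoprime f.1 f.2) :
    (F.card : ℝ) * (WW z).totient ≤ ∑ n ∈ range (WW z), ((sv z F n).card : ℝ) := by
  classical
  have h1 : ∑ n ∈ range (WW z), (sv z F n).card = ∑ f ∈ F, gz z {f} := by
    unfold sv gz
    simp only [card_filter]
    rw [sum_comm]
    apply sum_congr rfl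
    intro f _
    apply sum_congr rfl
    intro n _
    simp only [mem_singleton, forall_eq]
  have h2 : ∀ f ∈ F, (WW z).totient ≤ gz z {f} := by
    intro f hf
    rw [gz_eq]
    have h3 : (WW z).totient = ∏ p ∈ (z + 1).primesBelow, (p - 1) := by
      unfold WW
      have hco : ∀ p ∈ (z + 1).primesBelow, p.Prime := fun p hp => Nat.prime_of_mem_primesBelow hp
      generalize (z + 1).primesBelow = S at hco
      induction S using Finset.induction_on with
      | empty => simp
      | insert q S hq ih =>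
        rw [prod_insert hq, prod_insert hq, Nat.totient_mul, Nat.totient_prime (hco q (mem_insert_self _ _)),
          ih (fun p hp => hco p (mem_insert_of_mem hp))]
        apply Nat.Coprime.prod_right
        intro p hp
        rw [Nat.coprime_primes (hco q (mem_insert_self _ _)) (hco p (mem_insert_of_mem hp))]
        rintro rfl
        exact hq hp
    rw [h3]
    apply Finset.prod_le_prod'
    intro p hp
    have h4 := om_le {f} (Nat.prime_of_mem_primesBelow hp) (by
      intro g hg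
      rw [mem_singleton] at hg
      rw [hg]
      exact hF f hf)
    rw [card_singleton] at h4
    omega
  have h3 : F.card * (WW z).totient ≤ ∑ n ∈ range (WW z), (sv z F n).card := by
    rw [h1]
    rw [← smul_eq_mul]
    exact card_nsmul_le_sum _ _ _ h2
  exact_mod_cast h3

lemma sum_pset (z r : ℕ) (F : Finset (ℤ × ℤ)) (P : Finset (ℤ × ℤ) → Prop) [DecidablePred P] :
    ∑ n ∈ range (WW z), (((sv z F n).powersetCard r).filter P).card =
      ∑ T ∈ (F.powersetCard r).filter P, gz z T := by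
  classical
  have h1 : ∀ n ∈ range (WW z), (((sv z F n).powersetCard r).filter P).card =
      ∑ T ∈ (F.powersetCard r).filter P, if (∀ p ∈ (z + 1).primesBelow, ∀ f ∈ T, ¬ (p : ℤ) ∣ f.1 * (n : ℤ) + f.2) then 1 else 0 := by
    intro n _
    rw [← card_filter]
    congr 1
    ext T
    unfold sv
    simp only [mem_filter, mem_powersetCard, subset_iff]
    constructor
    · rintro ⟨⟨h1, h2⟩, h3⟩
      exact ⟨⟨⟨fun f hf => (h1 hf).1, h2⟩, h3⟩, fun p hp f hf => (h1 hf).2 p hp⟩
    · rintro ⟨⟨⟨h1, h2⟩, h3⟩, h4⟩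
      exact ⟨⟨fun f hf => ⟨h1 hf, fun p hp => h4 p hp f hf⟩, h2⟩, h3⟩
  rw [sum_congr rfl h1, sum_comm]
  apply sum_congr rfl
  intro T _
  unfold gz
  rw [card_filter]

end Pool.Agent.H37EF
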