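import Mathlib
import Pool.Agent.H37EF.Loc

/-! The constants `BH` against the truncated products. -/

set_option autoImplicit false

namespace Pool.Agent.H37EF

open Finset Filter Topology

lemma sum_inv_sq_gt {y : ℕ} (hy : 1 ≤ y) (S : Finset ℕ) (hS : ∀ p ∈ S, y < p) :
    ∑ p ∈ S, ((p:ℝ) ^ 2)⁻¹ ≤ 1 / y := by
  have hy0 : (0:ℝ) < y := by exact_mod_cast hy
  rcases S.eq_empty_or_nonempty with rfl | hne
  · simp
  · have hsub : S ⊆ Ioc y (S.sup id) := by
      intro p hp
      rw [mem_Ioc]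
      exact ⟨hS p hp, le_sup (f := id) hp⟩
    have hle : y ≤ S.sup id := by
      obtain ⟨p, hp⟩ := hne
      have := mem_Ioc.1 (hsub hp)
      omega
    have h1 := sum_Ioc_inv_sq_le_sub (α := ℝ) (by omega : y ≠ 0) hle
    refine (sum_le_sum_of_subset_of_nonneg hsub fun i _ _ => by positivity).trans (h1.trans ?_)
    have : (0:ℝ) ≤ ((S.sup id : ℕ) : ℝ)⁻¹ := by positivity
    rw [one_div]
    linarith

/-- a prime below `y + 1` as an element of the type of primes -/
def mkP (y : ℕ) (p : {x : ℕ // x ∈ (y + 1).primesBelow}) : Nat.Primes := ⟨p.1, Nat.prime_of_mem_primesBelow p.2⟩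

/-- the underlying natural number -/
def toN (p : Nat.Primes) : ℕ := (p : ℕ)

lemma toN_inj : Function.Injective toN := fun _ _ h => Nat.Primes.coe_nat_injective h

lemma one_sub_sum_le {ι : Type*} (s : Finset ι) (x : ι → ℝ) (h0 : ∀ i ∈ s, 0 ≤ x i) (h1 : ∀ i ∈ s, x i ≤ 1) :
    1 - ∑ i ∈ s, x i ≤ ∏ i ∈ s, (1 - x i) := by
  classical
  induction s using Finset.induction_on with
  | empty => simp
  | insert a s ha ih =>
    rw [sum_insert ha, prod_insert ha]
    have i1 := ih (fun i hi => h0 i (mem_insert_of_mem hi)) (fun i hi => h1 i (mem_insert_of_mem hi))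
    have i2 := h0 a (mem_insert_self _ _)
    have i3 := h1 a (mem_insert_self _ _)
    have i4 : 0 ≤ ∑ i ∈ s, x i := sum_nonneg fun i hi => h0 i (mem_insert_of_mem hi)
    have i5 : (1 - x a) * (1 - ∑ i ∈ s, x i) ≤ (1 - x a) * ∏ i ∈ s, (1 - x i) :=
      mul_le_mul_of_nonneg_left i1 (by linarith)
    have i6 : 0 ≤ x a * ∑ i ∈ s, x i := mul_nonneg i2 i4
    nlinarith

theorem summable_lc (T : Finset (ℤ × ℤ)) (h0 : ND T) (hT : ∀ f ∈ T, IsCoprime f.1 f.2) :
    Summable (fun p : Nat.Primes => lc T p - 1) := by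
  have hg : Summable (fun p : Nat.Primes => (T.card : ℝ) ^ 2 * (1 / ((p : ℕ) : ℝ) ^ 2)) := by
    apply Summable.mul_left
    exact (Real.summable_one_div_nat_pow.2 (by norm_num : 1 < 2)).comp_injective
      (Subtype.val_injective)
  apply Summable.of_norm_bounded_eventually hg
  have hD : DT T ≠ 0 := h0
  have hfin : {p : Nat.Primes | (p : ℕ) ≤ T.card + (DT T).natAbs}.Finite := by
    apply Set.Finite.of_finite_image (f := (fun p : Nat.Primes => (p : ℕ)))
    · apply (Set.finite_Iic (T.card + (DT T).natAbs)).subset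
      rintro _ ⟨p, hp, rfl⟩
      exact hp
    · exact Subtype.val_injective.injOn
  rw [Filter.eventually_cofinite]
  apply hfin.subset
  intro p hp
  simp only [Set.mem_ofPred_eq] at hp ⊢
  by_contra hcon
  push Not at hcon
  apply hp
  have h1 : ¬ ((p : ℕ) : ℤ) ∣ DT T := by
    intro h
    have h2 : (p : ℕ) ∣ (DT T).natAbs := Int.natCast_dvd.1 h
    have h3 := Nat.le_of_dvd (Int.natAbs_pos.2 hD) h2
    omega
  have h2 := lc_ge T p.2 hT (by omega)
  have h3 := lc_le_one T p.2 h1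
  rw [Real.norm_eq_abs, abs_le, one_div]
  constructor
  · linarith
  · have : (0:ℝ) ≤ (T.card : ℝ) ^ 2 * (((p : ℕ) : ℝ) ^ 2)⁻¹ := by positivity
    linarith

theorem BH_hasProd (T : Finset (ℤ × ℤ)) (h0 : ND T) (hT : ∀ f ∈ T, IsCoprime f.1 f.2) :
    HasProd (fun p : Nat.Primes => lc T p) (BH T) := by
  have := Real.multipliable_one_add_of_summable (summable_lc T h0 hT)
  simp only [add_sub_cancel] at this
  exact this.hasProd

/-- truncated product -/
noncomputable def Ez (T : Finset (ℤ × ℤ)) (z : ℕ) : ℝ := ∏ p ∈ (z + 1).primesBelow, lc T p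

lemma Ez_nonneg (T : Finset (ℤ × ℤ)) (z : ℕ) : 0 ≤ Ez T z :=
  prod_nonneg fun _ hp => lc_nonneg T (Nat.prime_of_mem_primesBelow hp)

theorem BH_bounds (r : ℕ) (ε : ℝ) (hε : 0 < ε) : ∃ z0 : ℕ, ∀ z : ℕ, z0 ≤ z → ∀ H : ℝ, 1 ≤ H → Real.log (2 * H ^ 2) ≤ z →
    ∀ T : Finset (ℤ × ℤ), T.card = r → ND T → (∀ f ∈ T, IsCoprime f.1 f.2) →
      (∀ f ∈ T, |(f.1 : ℝ)| ≤ H ∧ |(f.2 : ℝ)| ≤ H) →
      (1 - ε) * Ez T z ≤ BH T ∧ BH T ≤ (1 + ε) * Ez T z := by
  classical
  have tz : Tendsto (fun z : ℕ => (z : ℝ)) atTop atTop := tendsto_natCast_atTop_atTop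
  have tl : Tendsto (fun z : ℕ => Real.log (z : ℝ)) atTop atTop := Real.tendsto_log_atTop.comp tz
  have hl1 : 0 < Real.log (1 + ε) := Real.log_pos (by linarith)
  have hev : ∀ᶠ z : ℕ in atTop, 2 ≤ z ∧ r ≤ z ∧ (r : ℝ) ^ 2 / ε ≤ z ∧
      (2 * r * (r + r * r) : ℝ) / Real.log (1 + ε) ≤ Real.log z := by
    filter_upwards [eventually_ge_atTop 2, eventually_ge_atTop r, tz.eventually_ge_atTop ((r : ℝ) ^ 2 / ε),
      tl.eventually_ge_atTop ((2 * r * (r + r * r) : ℝ) / Real.log (1 + ε))] with z h1 h2 h3 h4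
    exact ⟨h1, h2, h3, h4⟩
  obtain ⟨z0, hz0⟩ := eventually_atTop.1 hev
  refine ⟨z0, fun z hz H hH hlog T hTr h0 hT hTH => ?_⟩
  obtain ⟨hz2, hzr, hze, hzl⟩ := hz0 z hz
  have hprod := BH_hasProd T h0 hT
  rw [HasProd] at hprod
  set F0 : Finset Nat.Primes := ((z + 1).primesBelow).attach.image (mkP z) with hF0
  have hmem : ∀ p : Nat.Primes, p ∈ F0 ↔ (p : ℕ) ∈ (z + 1).primesBelow := by
    intro p
    rw [hF0, mem_image]
    constructor
    · rintro ⟨a, _, rfl⟩
      exact a.2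
    · intro h
      exact ⟨⟨p, h⟩, mem_attach _ _, rfl⟩
  have hz0' : (0:ℝ) < z := by exact_mod_cast (by omega : 0 < z)
  have hlz : 0 < Real.log z := Real.log_pos (by exact_mod_cast (by omega : 1 < z))
  have hF0' : ∏ p ∈ F0, lc T p = Ez T z := by
    unfold Ez
    rw [hF0, prod_image]
    · rw [← prod_attach ((z + 1).primesBelow)]
      rfl
    · intro a _ b _ hab
      have h9 : (a : ℕ) = b := congrArg (fun p : Nat.Primes => (p : ℕ)) hab
      exact Subtype.ext h9
  have hEz := Ez_nonneg T z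
  have key : ∀ F : Finset Nat.Primes, F0 ⊆ F → 1 - ε ≤ ∏ p ∈ F \ F0, lc T p ∧ ∏ p ∈ F \ F0, lc T p ≤ 1 + ε := by
    intro F hF'
    have hbig : ∀ p ∈ F \ F0, z < (p : ℕ) := by
      intro p hp
      rw [Finset.mem_sdiff, hmem, Nat.mem_primesBelow] at hp
      by_contra h
      exact hp.2 ⟨by omega, p.2⟩
    have hr : ∀ p ∈ F \ F0, T.card ≤ (p : ℕ) := by
      intro p hp
      have := hbig p hp
      omega
    constructor
    · have hsum : ∑ p ∈ F \ F0, (T.card : ℝ) ^ 2 * (((p : ℕ) : ℝ) ^ 2)⁻¹ ≤ ε := by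
        rw [← mul_sum]
        have h2 : ∑ p ∈ F \ F0, (((p : ℕ) : ℝ) ^ 2)⁻¹ ≤ 1 / z := by
          have h3 := sum_inv_sq_gt (by omega : 1 ≤ z) ((F \ F0).image toN) (by
            intro p hp
            rw [mem_image] at hp
            obtain ⟨p', hp', rfl⟩ := hp
            exact hbig p' hp')
          rw [sum_image (fun a _ b _ hab => toN_inj hab)] at h3
          exact h3
        calc (T.card : ℝ) ^ 2 * ∑ p ∈ F \ F0, (((p : ℕ) : ℝ) ^ 2)⁻¹ ≤ (T.card : ℝ) ^ 2 * (1 / z) := by gcongr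
          _ ≤ ε := by
              rw [mul_one_div, div_le_iff₀ hz0', hTr]
              rw [div_le_iff₀ hε] at hze
              linarith
      have h2 := one_sub_sum_le (F \ F0) (fun p => (T.card : ℝ) ^ 2 * (((p : ℕ) : ℝ) ^ 2)⁻¹)
        (fun p _ => by positivity) (fun p hp => by
          have h3 : (T.card : ℝ) ≤ ((p : ℕ) : ℝ) := by exact_mod_cast hr p hp
          have h4 : (0:ℝ) < ((p : ℕ) : ℝ) := by exact_mod_cast p.2.pos
          rw [← div_eq_mul_inv, div_le_one (by positivity)]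
          exact pow_le_pow_left₀ (Nat.cast_nonneg _) h3 2)
      have h3 : ∏ p ∈ F \ F0, (1 - (T.card : ℝ) ^ 2 * (((p : ℕ) : ℝ) ^ 2)⁻¹) ≤ ∏ p ∈ F \ F0, lc T p := by
        apply Finset.prod_le_prod
        · intro p hp
          have h3 : (T.card : ℝ) ≤ ((p : ℕ) : ℝ) := by exact_mod_cast hr p hp
          have h4 : (0:ℝ) < ((p : ℕ) : ℝ) := by exact_mod_cast p.2.pos
          rw [sub_nonneg, ← div_eq_mul_inv, div_le_one (by positivity)]
          exact pow_le_pow_left₀ (Nat.cast_nonneg _) h3 2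
        · intro p hp
          exact lc_ge T p.2 hT (hr p hp)
      linarith
    · have h1 : ∀ p ∈ F \ F0, lc T p ≤ Real.exp (if ((p : ℕ) : ℤ) ∣ DT T then 2 * T.card * (1 / ((p : ℕ) : ℝ)) else 0) := by
        intro p _
        split_ifs with h
        · rw [mul_one_div]
          exact lc_le_exp T p.2
        · rw [Real.exp_zero]
          exact lc_le_one T p.2 h
      refine (Finset.prod_le_prod (fun p _ => lc_nonneg T p.2) h1).trans ?_
      rw [← Real.exp_sum, ← sum_filter, ← mul_sum]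
      have h2 : ∑ p ∈ (F \ F0).filter (fun p : Nat.Primes => ((p : ℕ) : ℤ) ∣ DT T), (1 : ℝ) / ((p : ℕ) : ℝ) ≤
          (r + r * r) / Real.log z := by
        have h3 := big_primes (DT T) (h0) z hz2
          (((F \ F0).filter (fun p : Nat.Primes => ((p : ℕ) : ℤ) ∣ DT T)).image toN) (by
            intro p hp
            rw [mem_image] at hp
            obtain ⟨p', hp', rfl⟩ := hp
            rw [mem_filter] at hp'
            exact ⟨p'.2, hbig p' hp'.1, hp'.2⟩)
        rw [sum_image (fun a _ b _ hab => toN_inj hab)] at h3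
        refine h3.trans ?_
        have h4 := log_DT T H hH hTH
        have hD0 : 0 < |(DT T : ℝ)| := abs_pos.2 (by exact_mod_cast h0)
        have h5 := Real.log_le_log hD0 h4
        rw [Real.log_pow, hTr] at h5
        rw [div_le_div_iff₀ (by positivity) hlz]
        have h6 : Real.log |(DT T : ℝ)| ≤ ((r : ℝ) + r * r) * z := by
          refine h5.trans ?_
          push_cast
          exact mul_le_mul_of_nonneg_left hlog (by positivity)
        calc Real.log |(DT T : ℝ)| * Real.log z ≤ (((r : ℝ) + r * r) * z) * Real.log z :=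
              mul_le_mul_of_nonneg_right h6 hlz.le
          _ = _ := by ring
      rw [← Real.le_log_iff_exp_le (by linarith)]
      rw [hTr]
      calc 2 * (r : ℝ) * ∑ p ∈ (F \ F0).filter (fun p : Nat.Primes => ((p : ℕ) : ℤ) ∣ DT T), (1 : ℝ) / ((p : ℕ) : ℝ) ≤
          2 * (r : ℝ) * ((r + r * r) / Real.log z) := mul_le_mul_of_nonneg_left h2 (by positivity)
        _ ≤ Real.log (1 + ε) := by
          rw [div_le_iff₀ hl1] at hzl
          rw [← mul_div_assoc, div_le_iff₀ hlz]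
          linarith
  constructor
  · refine ge_of_tendsto hprod ?_
    filter_upwards [eventually_ge_atTop F0] with F hF
    have hF' : F0 ⊆ F := hF
    rw [← prod_sdiff hF', hF0']
    exact mul_le_mul_of_nonneg_right (key F hF').1 hEz
  · refine le_of_tendsto hprod ?_
    filter_upwards [eventually_ge_atTop F0] with F hF
    have hF' : F0 ⊆ F := hF
    rw [← prod_sdiff hF', hF0']
    exact mul_le_mul_of_nonneg_right (key F hF').2 hEz

end Pool.Agent.H37EF
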