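import Mathlib
import Pool.Agent.H37EF.Tail
import Pool.Agent.H37EF.Cnt
import Pool.Agent.H316R2.Pb1

/-! The main theorem for pairs. -/

set_option autoImplicit false

namespace Pool.Agent.H37EF

open Finset

lemma jens {I : Finset ℕ} (x : ℕ → ℕ) (k : ℕ) {μ : ℝ} (hμ : (k:ℝ) ≤ μ)
    (hsum : μ * I.card ≤ ∑ b ∈ I, (x b : ℝ)) :
    (I.card : ℝ) * ((μ - k) ^ (k + 1) / (k + 1).factorial) ≤ ∑ b ∈ I, (((x b).choose (k + 1) : ℕ) : ℝ) := by
  have hf : (0 : ℝ) < ((k + 1).factorial : ℝ) := by exact_mod_cast Nat.factorial_pos _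
  have h3 : ∀ b ∈ I, (max ((x b : ℝ) - k) 0) ^ (k + 1) / (k + 1).factorial ≤ (((x b).choose (k + 1) : ℕ) : ℝ) := by
    intro b _
    have h4 := Nat.pow_le_choose (α := ℝ) (k + 1) (x b)
    have h5 : ((x b + 1 - (k + 1) : ℕ) : ℝ) = max ((x b : ℝ) - k) 0 := by
      rcases le_or_gt k (x b) with h | h
      · rw [show x b + 1 - (k + 1) = x b - k by omega, Nat.cast_sub h, max_eq_left]
        have : (k:ℝ) ≤ x b := by exact_mod_cast h
        linarith
      · rw [show x b + 1 - (k + 1) = 0 by omega, Nat.cast_zero, max_eq_right]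
        have : (x b:ℝ) ≤ k := by exact_mod_cast h.le
        linarith
    rw [h5] at h4
    exact h4
  refine le_trans ?_ (sum_le_sum h3)
  rw [← sum_div, mul_div_assoc']
  apply div_le_div_of_nonneg_right _ hf.le
  rcases Nat.eq_zero_or_pos I.card with h0 | h0
  · rw [h0, Nat.cast_zero, zero_mul]
    exact sum_nonneg fun b _ => by positivity
  · have hI : (0:ℝ) < I.card := by exact_mod_cast h0
    have h4 := pow_sum_div_card_le_sum_pow (s := I) (f := fun b => max ((x b : ℝ) - k) 0)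
      (fun b _ => le_max_right _ _) k
    refine le_trans ?_ h4
    have h5 : (μ - k) * I.card ≤ ∑ b ∈ I, max ((x b : ℝ) - k) 0 := by
      calc (μ - k) * I.card = μ * I.card - ∑ _b ∈ I, (k:ℝ) := by rw [sum_const, nsmul_eq_mul]; ring
        _ ≤ ∑ b ∈ I, (x b : ℝ) - ∑ _b ∈ I, (k:ℝ) := by linarith
        _ = ∑ b ∈ I, ((x b : ℝ) - k) := by rw [sum_sub_distrib]
        _ ≤ _ := sum_le_sum fun b _ => le_max_left _ _
    rw [le_div_iff₀ (by positivity)]
    calc (I.card : ℝ) * (μ - k) ^ (k + 1) * (I.card : ℝ) ^ k = ((μ - k) * I.card) ^ (k + 1) := by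
          rw [mul_pow, pow_succ (I.card : ℝ)]; ring
      _ ≤ _ := pow_le_pow_left₀ (mul_nonneg (by linarith) hI.le) h5 _

/-- the small members contribute little -/
lemma smallp {I : Finset ℕ} (x : ℕ → ℕ) (k : ℕ) {μ η : ℝ} (hμ : 2 * (k:ℝ) ≤ μ) (hμ0 : 0 ≤ μ)
    (hsum : μ * I.card ≤ ∑ b ∈ I, (x b : ℝ)) (hη : 0 < η) (hη1 : 2 * η ≤ 1)
    [DecidablePred fun b => η * μ ≤ (x b : ℝ)] :
    (1 - 2 * η) * ∑ b ∈ I, (((x b).choose (k + 1) : ℕ) : ℝ) ≤
      ∑ b ∈ I.filter (fun b => η * μ ≤ (x b : ℝ)), (((x b).choose (k + 1) : ℕ) : ℝ) := by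
  have hf : (0 : ℝ) < ((k + 1).factorial : ℝ) := by exact_mod_cast Nat.factorial_pos _
  have hk0 : (0:ℝ) ≤ k := Nat.cast_nonneg k
  have h1 : ∑ b ∈ I.filter (fun b => ¬ η * μ ≤ (x b : ℝ)), (((x b).choose (k + 1) : ℕ) : ℝ) ≤
      I.card * ((η * μ) ^ (k + 1) / (k + 1).factorial) := by
    calc _ ≤ ∑ b ∈ I.filter (fun b => ¬ η * μ ≤ (x b : ℝ)), (η * μ) ^ (k + 1) / (k + 1).factorial := by
          apply sum_le_sum
          intro b hb
          rw [mem_filter, not_le] at hb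
          refine (Nat.choose_le_pow_div (α := ℝ) (k + 1) (x b)).trans ?_
          apply div_le_div_of_nonneg_right _ hf.le
          exact pow_le_pow_left₀ (Nat.cast_nonneg _) hb.2.le _
      _ = (I.filter (fun b => ¬ η * μ ≤ (x b : ℝ))).card * ((η * μ) ^ (k + 1) / (k + 1).factorial) := by
          rw [sum_const, nsmul_eq_mul]
      _ ≤ _ := by
          apply mul_le_mul_of_nonneg_right _ (by positivity)
          exact_mod_cast card_filter_le _ _
  have h2 := jens x k (by linarith : (k:ℝ) ≤ μ) hsum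
  have h3 : (η * μ) ^ (k + 1) ≤ 2 * η * (μ - k) ^ (k + 1) := by
    calc (η * μ) ^ (k + 1) = (2 * η) ^ (k + 1) * (μ / 2) ^ (k + 1) := by rw [← mul_pow]; congr 1; ring
      _ ≤ (2 * η) ^ 1 * (μ - k) ^ (k + 1) := by
        apply mul_le_mul
        · exact pow_le_pow_of_le_one (by positivity) hη1 (by omega)
        · exact pow_le_pow_left₀ (by positivity) (by linarith) _
        · positivity
        · positivity
      _ = _ := by rw [pow_one]
  have h4 := sum_filter_add_sum_filter_not I (fun b => η * μ ≤ (x b : ℝ)) (fun b => (((x b).choose (k + 1) : ℕ) : ℝ))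
  have h5 : (I.card : ℝ) * ((η * μ) ^ (k + 1) / (k + 1).factorial) ≤
      2 * η * ((I.card : ℝ) * ((μ - k) ^ (k + 1) / (k + 1).factorial)) := by
    calc (I.card : ℝ) * ((η * μ) ^ (k + 1) / (k + 1).factorial) ≤
        I.card * ((2 * η * (μ - k) ^ (k + 1)) / (k + 1).factorial) := by gcongr
      _ = _ := by ring
  have h6 := mul_le_mul_of_nonneg_left h2 (by positivity : 0 ≤ 2 * η)
  linarith

lemma conv3 {ι : Type*} (P : Finset ι) (g c : ι → ℝ) (z a e : ℝ) (hz : 0 ≤ z) (he : 0 < e) (he1 : e ≤ 1)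
    (ha0 : 0 ≤ a) (ha1 : a ≤ 1) (hg : ∀ T ∈ P, 0 ≤ g T) (good : ι → Prop) [DecidablePred good]
    (hc1 : ∀ T ∈ P, (1 - e) * (z * g T) ≤ c T) (hc2 : ∀ T ∈ P, c T ≤ (1 + e) * (z * g T))
    (hs : a * ∑ T ∈ P, g T ≤ ∑ T ∈ P.filter good, g T) :
    (a - 2 * e) * ∑ T ∈ P, c T ≤ ∑ T ∈ P.filter good, c T := by
  have h5 : (1 - e) * (z * ∑ T ∈ P.filter good, g T) ≤ ∑ T ∈ P.filter good, c T := by
    rw [mul_sum, mul_sum]
    exact sum_le_sum fun T hT => hc1 T (mem_filter.1 hT).1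
  have h6 : ∑ T ∈ P, c T ≤ (1 + e) * (z * ∑ T ∈ P, g T) := by
    rw [mul_sum, mul_sum]
    exact sum_le_sum fun T hT => hc2 T hT
  have hG : 0 ≤ ∑ T ∈ P, g T := sum_nonneg hg
  have h7 : (1 - e) * (z * (a * ∑ T ∈ P, g T)) ≤ ∑ T ∈ P.filter good, c T :=
    le_trans (mul_le_mul_of_nonneg_left (mul_le_mul_of_nonneg_left hs hz) (by linarith)) h5
  refine le_trans ?_ h7
  rcases le_or_gt (a - 2 * e) 0 with hn | hp
  · have hC : 0 ≤ ∑ T ∈ P, c T := sum_nonneg fun T hT =>
      le_trans (mul_nonneg (by linarith) (mul_nonneg hz (hg T hT))) (hc1 T hT)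
    have : (a - 2 * e) * ∑ T ∈ P, c T ≤ 0 := mul_nonpos_of_nonpos_of_nonneg hn hC
    refine this.trans ?_
    have : 0 ≤ 1 - e := by linarith
    positivity
  · refine (mul_le_mul_of_nonneg_left h6 hp.le).trans ?_
    have hzG : 0 ≤ z * ∑ T ∈ P, g T := mul_nonneg hz hG
    have : (a - 2 * e) * (1 + e) ≤ (1 - e) * a := by nlinarith
    calc (a - 2 * e) * ((1 + e) * (z * ∑ T ∈ P, g T)) = ((a - 2 * e) * (1 + e)) * (z * ∑ T ∈ P, g T) := by ring
      _ ≤ ((1 - e) * a) * (z * ∑ T ∈ P, g T) := mul_le_mul_of_nonneg_right this hzG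
      _ = _ := by ring

lemma rho_mert : ∃ c : ℝ, 0 < c ∧ ∀ z : ℕ, 2 ≤ z → c ≤ rho z * max 1 (Real.log z / Real.log 2) := by
  obtain ⟨c, hc, _, h⟩ := Pool.Agent.H316R2.mert_tail
  refine ⟨c / 2, by positivity, fun z hz => ?_⟩
  have hrho : rho z = ∏ p ∈ (z + 1).primesBelow, (1 - 1 / (p : ℝ)) := by
    unfold rho
    rw [totient_WW]
    have : (WW z : ℝ) ≠ 0 := by exact_mod_cast (WW_pos z).ne'
    field_simp
  have h2 : 2 ∈ (z + 1).primesBelow := Nat.mem_primesBelow.2 ⟨by omega, Nat.prime_two⟩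
  have h3 := h 2 z le_rfl (by omega) ((z + 1).primesBelow.erase 2) (by
    intro p hp
    rw [mem_erase, Nat.mem_primesBelow] at hp
    have := hp.2.2.two_le
    have := hp.1
    exact ⟨hp.2.2, by omega, by omega⟩)
  have h4 := mul_prod_erase (z + 1).primesBelow (fun p => (1 - 1 / (p : ℝ))) h2
  rw [hrho, ← h4]
  have hm : 0 < max 1 (Real.log z / Real.log 2) := lt_of_lt_of_le one_pos (le_max_left _ _)
  push_cast at h3 ⊢
  rw [div_le_iff₀ hm] at h3
  calc c / 2 = (1 - 1 / (2:ℝ)) * c := by ring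
    _ ≤ (1 - 1 / (2:ℝ)) * ((∏ p ∈ (z + 1).primesBelow.erase 2, (1 - 1 / (p:ℝ))) * max 1 (Real.log z / Real.log 2)) :=
        mul_le_mul_of_nonneg_left h3 (by norm_num)
    _ = _ := by ring

/-- the choice of `z` -/
lemma choose_z (z0 : ℕ) (hz0 : 2 ≤ z0) : ∃ c : ℝ, 0 < c ∧ ∀ H : ℝ, 3 ≤ H → ∃ z : ℕ, z0 ≤ z ∧ Real.log (2 * H ^ 2) ≤ z ∧
    c ≤ rho z * (1 + Real.log (Real.log H)) := by
  obtain ⟨c, hc, h⟩ := rho_mert
  have hl2 : 0 < Real.log 2 := Real.log_pos (by norm_num)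
  have hz0' : (2:ℝ) ≤ z0 := by exact_mod_cast hz0
  have hl4 : 0 < Real.log (4 * z0) := Real.log_pos (by linarith)
  set D : ℝ := 1 + (Real.log (4 * z0) + 1) / Real.log 2 with hD
  have hD0 : 0 < D := by positivity
  refine ⟨c / D, by positivity, fun H hH => ?_⟩
  have hlH : 1 < Real.log H := by
    rw [Real.lt_log_iff_exp_lt (by linarith)]
    have := Real.exp_one_lt_d9
    linarith
  have hllH : 0 < Real.log (Real.log H) := Real.log_pos hlH
  refine ⟨max z0 ⌈Real.log (2 * H ^ 2)⌉₊, le_max_left _ _, (Nat.le_ceil _).trans (by exact_mod_cast le_max_right _ _), ?_⟩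
  set z := max z0 ⌈Real.log (2 * H ^ 2)⌉₊ with hz
  have hz2 : 2 ≤ z := hz0.trans (le_max_left _ _)
  have h1 := h z hz2
  have h2 : (z : ℝ) ≤ (4 * z0) * Real.log H := by
    have h3 : Real.log (2 * H ^ 2) ≤ 3 * Real.log H := by
      rw [Real.log_mul (by norm_num) (by positivity), Real.log_pow]
      have : Real.log 2 ≤ Real.log H := Real.log_le_log (by norm_num) (by linarith)
      push_cast
      linarith
    have h30 : 0 ≤ Real.log (2 * H ^ 2) := Real.log_nonneg (by nlinarith)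
    have h4 : ((⌈Real.log (2 * H ^ 2)⌉₊ : ℕ) : ℝ) ≤ 4 * Real.log H := by
      have := Nat.ceil_lt_add_one h30
      linarith
    rw [hz]
    push_cast
    apply max_le
    · nlinarith
    · nlinarith
  have hzpos : (0:ℝ) < z := by exact_mod_cast (by omega : 0 < z)
  have h5 : Real.log z ≤ Real.log (4 * z0) + Real.log (Real.log H) := by
    rw [← Real.log_mul (by positivity) (by positivity)]
    exact Real.log_le_log hzpos h2
  have h6 : max 1 (Real.log z / Real.log 2) ≤ D * (1 + Real.log (Real.log H)) := by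
    apply max_le
    · have : 1 ≤ D := by rw [hD]; have : 0 < (Real.log (4 * z0) + 1) / Real.log 2 := by positivity
                         linarith
      nlinarith
    · rw [div_le_iff₀ hl2]
      have e : D * (1 + Real.log (Real.log H)) * Real.log 2 = (Real.log 2 + (Real.log (4 * z0) + 1)) * (1 + Real.log (Real.log H)) := by
        rw [hD]; field_simp
      rw [e]
      nlinarith
  have hρ := rho_pos z
  rw [div_le_iff₀ hD0]
  calc c ≤ _ := h1
    _ ≤ rho z * (D * (1 + Real.log (Real.log H))) := mul_le_mul_of_nonneg_left h6 hρ.le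
    _ = _ := by ring

open Classical in
/-- **the transfer from classes of residues to the mass of the constants** -/
theorem mass (k : ℕ) (hk : 1 ≤ k) (a : ℝ) (ha0 : 0 < a) (ha1 : a ≤ 1) (ε : ℝ) (hε : 0 < ε) (hεa : ε ≤ a)
    (n0 z1 : ℕ) :
    ∃ C : ℝ, 0 < C ∧ ∀ (H : ℝ) (F : Finset (ℤ × ℤ)) (Good : Finset (ℤ × ℤ) → Prop), 3 ≤ H →
    (∀ f ∈ F, f.1 ≠ 0 ∧ IsCoprime f.1 f.2 ∧ |(f.1 : ℝ)| ≤ H ∧ |(f.2 : ℝ)| ≤ H) →
    (∀ f ∈ F, ∀ g ∈ F, f ≠ g → f.1 * g.2 ≠ f.2 * g.1) →
    C * (1 + Real.log (Real.log H)) ≤ F.card →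
    (∀ z : ℕ, z1 ≤ z → ∀ n : ℕ, n0 ≤ (sv z F n).card → (a - ε / 4) * ((sv z F n).card.choose (k + 1)) ≤
      (((sv z F n).powersetCard (k + 1)).filter Good).card) →
    (1 - ε) * (F.card.choose (k + 1)) ≤ ∑ T ∈ F.powersetCard (k + 1), BH T ∧
    (a - ε) * ∑ T ∈ F.powersetCard (k + 1), BH T ≤ ∑ T ∈ (F.powersetCard (k + 1)).filter Good, BH T := by
  obtain ⟨e1, he1⟩ : ∃ e1 : ℝ, e1 = ε := ⟨ε, rfl⟩
  rw [← he1] at hε hεa ⊢
  have he10 : 0 < e1 := hε
  have he1ε : e1 ≤ e1 := le_rfl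
  have he14 : e1 ≤ a := hεa
  have h41 : a ≤ 1 := ha1
  set η : ℝ := e1 / 16 with hη
  have hη0 : 0 < η := by positivity
  obtain ⟨z2, hBH⟩ := BH_bounds (k + 1) (e1 / 8) (by positivity)
  set z0 := max 2 (max z1 z2) with hz0
  obtain ⟨c, hc, hz⟩ := choose_z z0 (le_max_left _ _)
  have hk0 : (0:ℝ) ≤ k := Nat.cast_nonneg k
  have hk1 : (1:ℝ) ≤ k := by exact_mod_cast hk
  set M : ℝ := 2 * k + n0 / η + 2 * (k + 1) * k / e1 with hM
  have hM0 : 0 < M := by positivity
  refine ⟨M / c, by positivity, fun H F Good hH hF hprop hcard hcls => ?_⟩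
  obtain ⟨z, hzz0, hzlog, hzc⟩ := hz H hH
  have hz1 : z1 ≤ z := ((le_max_left _ _).trans (le_max_right _ _)).trans hzz0
  have hz2 : z2 ≤ z := ((le_max_right _ _).trans (le_max_right _ _)).trans hzz0
  have hρ := rho_pos z
  have hWpos : 0 < WW z := WW_pos z
  have hW0 : (0:ℝ) < WW z := by exact_mod_cast hWpos
  set μ : ℝ := F.card * rho z with hμ
  have hlH : 1 < Real.log H := by
    rw [Real.lt_log_iff_exp_lt (by linarith)]
    have := Real.exp_one_lt_d9
    linarith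
  have hllH : 0 < Real.log (Real.log H) := Real.log_pos hlH
  have hμM : M ≤ μ := by
    calc M = M / c * c := by field_simp
      _ ≤ M / c * (rho z * (1 + Real.log (Real.log H))) := mul_le_mul_of_nonneg_left hzc (by positivity)
      _ = (M / c * (1 + Real.log (Real.log H))) * rho z := by ring
      _ ≤ F.card * rho z := mul_le_mul_of_nonneg_right hcard hρ.le
  have hμ0 : 0 < μ := lt_of_lt_of_le hM0 hμM
  have hMa : 2 * (k:ℝ) ≤ μ := by
    refine le_trans ?_ hμM
    rw [hM]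
    have : 0 ≤ (n0 : ℝ) / η := by positivity
    have : 0 ≤ 2 * ((k:ℝ) + 1) * k / e1 := by positivity
    linarith
  have hMb : (n0 : ℝ) ≤ η * μ := by
    have : (n0 : ℝ) / η ≤ μ := by
      refine le_trans ?_ hμM
      rw [hM]
      have : 0 ≤ 2 * ((k:ℝ) + 1) * k / e1 := by positivity
      linarith
    rw [div_le_iff₀ hη0] at this
    linarith
  have hMc : 2 * ((k:ℝ) + 1) * k ≤ e1 * μ := by
    have : 2 * ((k:ℝ) + 1) * k / e1 ≤ μ := by
      refine le_trans ?_ hμM
      rw [hM]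
      have : 0 ≤ (n0 : ℝ) / η := by positivity
      linarith
    rw [div_le_iff₀ he10] at this
    linarith
  have hFco : ∀ f ∈ F, IsCoprime f.1 f.2 := fun f hf => (hF f hf).2.1
  have hφW : ((WW z).totient : ℝ) = rho z * WW z := by
    unfold rho
    field_simp
  have s2 : μ * ((range (WW z)).card : ℝ) ≤ ∑ n ∈ range (WW z), ((sv z F n).card : ℝ) := by
    have := sum_sv z F hFco
    rw [hφW] at this
    rw [card_range, hμ]
    linarith
  have s3 := smallp (I := range (WW z)) (fun n => (sv z F n).card) k (μ := μ) (η := η) hMa hμ0.le s2 hη0 (by linarith)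
  have s3' := jens (I := range (WW z)) (fun n => (sv z F n).card) k (μ := μ) (by linarith) s2
  have s4 : ∑ n ∈ range (WW z), (((sv z F n).card.choose (k + 1) : ℕ) : ℝ) =
      ∑ T ∈ F.powersetCard (k + 1), (gz z T : ℝ) := by
    have h1 := sum_pset z (k + 1) F (fun _ => True)
    simp only [filter_true] at h1
    rw [← Nat.cast_sum, ← Nat.cast_sum, ← h1]
    congr 1
    apply sum_congr rfl
    intro n _
    rw [card_powersetCard]
  have s5 : (a - e1 / 4) * ∑ n ∈ (range (WW z)).filter (fun n => η * μ ≤ ((sv z F n).card : ℝ)),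
      (((sv z F n).card.choose (k + 1) : ℕ) : ℝ) ≤ ∑ T ∈ (F.powersetCard (k + 1)).filter Good, (gz z T : ℝ) := by
    have g1 : ∑ T ∈ (F.powersetCard (k + 1)).filter Good, (gz z T : ℝ) =
        ∑ n ∈ range (WW z), ((((sv z F n).powersetCard (k + 1)).filter Good).card : ℝ) := by
      have := sum_pset z (k + 1) F Good
      exact_mod_cast this.symm
    rw [g1, mul_sum]
    calc _ ≤ ∑ n ∈ (range (WW z)).filter (fun n => η * μ ≤ ((sv z F n).card : ℝ)),
        ((((sv z F n).powersetCard (k + 1)).filter Good).card : ℝ) := by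
          apply sum_le_sum
          intro n hn
          rw [mem_filter] at hn
          have hsv : ∀ f ∈ sv z F n, f ∈ F ∧ ∀ p ∈ (z + 1).primesBelow, ¬ (p : ℤ) ∣ f.1 * (n : ℤ) + f.2 := by
            intro f hf
            unfold sv at hf
            rw [mem_filter] at hf
            exact hf
          refine hcls z hz1 n ?_
          exact_mod_cast hMb.trans hn.2
      _ ≤ _ := by
          apply sum_le_sum_of_subset_of_nonneg (filter_subset _ _)
          intro b _ _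
          exact Nat.cast_nonneg _
  have s6 : (a - 3 * (e1 / 8)) * ∑ T ∈ F.powersetCard (k + 1), (gz z T : ℝ) ≤
      ∑ T ∈ (F.powersetCard (k + 1)).filter Good, (gz z T : ℝ) := by
    refine le_trans ?_ s5
    have g1 := mul_le_mul_of_nonneg_left s3 (show 0 ≤ a - e1 / 4 by linarith)
    refine le_trans ?_ g1
    rw [s4, ← mul_assoc]
    apply mul_le_mul_of_nonneg_right _ (sum_nonneg fun b _ => Nat.cast_nonneg _)
    rw [hη]
    nlinarith
  have hcts : ∀ T ∈ F.powersetCard (k + 1), (1 - e1 / 8) * (((1 / rho z) ^ (k + 1) / WW z) * (gz z T : ℝ)) ≤ BH T ∧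
      BH T ≤ (1 + e1 / 8) * (((1 / rho z) ^ (k + 1) / WW z) * (gz z T : ℝ)) := by
    intro T hT
    rw [mem_powersetCard] at hT
    have g1 := hBH z hz2 H (by linarith) hzlog T hT.2 (ND_of T (fun f hf => (hF f (hT.1 hf)).1)
      (fun f hf g hg => hprop f (hT.1 hf) g (hT.1 hg)))
      (fun f hf => (hF f (hT.1 hf)).2.1) (fun f hf => (hF f (hT.1 hf)).2.2)
    unfold Ez at g1
    rw [Ez_eq, hT.2] at g1
    exact g1
  constructor
  · have t1 : (1 - e1 / 8) * (((1 / rho z) ^ (k + 1) / WW z) * ∑ T ∈ F.powersetCard (k + 1), (gz z T : ℝ)) ≤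
        ∑ T ∈ F.powersetCard (k + 1), BH T := by
      rw [mul_sum, mul_sum]
      exact sum_le_sum fun T hT => (hcts T hT).1
    refine le_trans ?_ t1
    rw [← s4]
    have t2 : (1 / rho z) ^ (k + 1) / WW z * (((range (WW z)).card : ℝ) * ((μ - k) ^ (k + 1) / (k + 1).factorial)) ≤
        (1 / rho z) ^ (k + 1) / WW z * ∑ n ∈ range (WW z), (((sv z F n).card.choose (k + 1) : ℕ) : ℝ) :=
      mul_le_mul_of_nonneg_left s3' (by positivity)
    refine le_trans ?_ (mul_le_mul_of_nonneg_left t2 (by linarith))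
    rw [card_range]
    have t3 : (1 / rho z) ^ (k + 1) / WW z * ((WW z : ℝ) * ((μ - k) ^ (k + 1) / (k + 1).factorial)) =
        (1 - k / μ) ^ (k + 1) * ((F.card : ℝ) ^ (k + 1) / (k + 1).factorial) := by
      have : μ - k = (1 - k / μ) * (F.card * rho z) := by
        rw [← hμ]; field_simp
      rw [this, mul_pow, mul_pow, one_div_pow]
      field_simp
    rw [t3]
    have hkμ : (k:ℝ) / μ ≤ 1 := by
      rw [div_le_one hμ0]; linarith
    have t4 : 1 - e1 / 2 ≤ (1 - k / μ) ^ (k + 1) := by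
      have := one_add_mul_le_pow (a := -((k:ℝ) / μ)) (by linarith) (k + 1)
      have t5 : ((k:ℝ) + 1) * (k / μ) ≤ e1 / 2 := by
        rw [← mul_div_assoc, div_le_iff₀ hμ0]
        linarith
      calc 1 - e1 / 2 ≤ 1 + ((k + 1 : ℕ) : ℝ) * -((k:ℝ) / μ) := by push_cast; linarith
        _ ≤ (1 + -((k:ℝ) / μ)) ^ (k + 1) := this
        _ = _ := by ring_nf
    have t5 : ((F.card.choose (k + 1) : ℕ) : ℝ) ≤ (F.card : ℝ) ^ (k + 1) / (k + 1).factorial :=
      Nat.choose_le_pow_div (α := ℝ) (k + 1) F.card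
    have t6 : (0:ℝ) ≤ ((F.card.choose (k + 1) : ℕ) : ℝ) := Nat.cast_nonneg _
    have t7 : 0 ≤ 1 - e1 / 2 := by linarith
    have t8 : 0 ≤ 1 - e1 / 8 := by linarith
    calc (1 - e1) * ((F.card.choose (k + 1) : ℕ) : ℝ) ≤ ((1 - e1 / 8) * (1 - e1 / 2)) * ((F.card.choose (k + 1) : ℕ) : ℝ) := by
          apply mul_le_mul_of_nonneg_right _ t6
          nlinarith
      _ = (1 - e1 / 8) * ((1 - e1 / 2) * ((F.card.choose (k + 1) : ℕ) : ℝ)) := by ring
      _ ≤ (1 - e1 / 8) * ((1 - k / μ) ^ (k + 1) * ((F.card : ℝ) ^ (k + 1) / (k + 1).factorial)) := by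
          apply mul_le_mul_of_nonneg_left _ t8
          exact mul_le_mul t4 t5 t6 (t7.trans t4)
  · have s7 := conv3 (F.powersetCard (k + 1)) (fun T => (gz z T : ℝ)) (fun T => BH T)
      ((1 / rho z) ^ (k + 1) / WW z) (a - 3 * (e1 / 8)) (e1 / 8) (by positivity) (by positivity) (by linarith)
      (by linarith) (by linarith) (fun T _ => Nat.cast_nonneg _) Good
      (fun T hT => (hcts T hT).1) (fun T hT => (hcts T hT).2) s6
    refine le_trans ?_ s7
    apply mul_le_mul_of_nonneg_right (by linarith)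
    apply sum_nonneg
    intro T hT
    refine le_trans ?_ (hcts T hT).1
    have : 0 ≤ 1 - e1 / 8 := by linarith
    positivity

end Pool.Agent.H37EF
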