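import Mathlib
import Pool.Agent.H37EF.Mass
import Pool.Agent.H37EF.ClsH

/-! The mass of the constants at every scale, for polynomials. -/

set_option autoImplicit false

namespace Pool.Agent.H37EF

open Finset Polynomial Filter Topology

lemma nprop {f g : ℤ × ℤ} (hf : IsCoprime f.1 f.2) (hg : IsCoprime g.1 g.2) (f0 : f.1 ≠ 0)
    {y : ℝ} (pf : 0 < f.1 * y + f.2) (pg : 0 < g.1 * y + g.2) (hne : f ≠ g) : f.1 * g.2 ≠ f.2 * g.1 := by
  intro h1
  have d1 : f.1 ∣ g.1 := hf.dvd_of_dvd_mul_left ⟨g.2, by rw [h1]⟩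
  have d2 : g.1 ∣ f.1 := hg.dvd_of_dvd_mul_right ⟨f.2, by rw [h1]; ring⟩
  rcases Int.natAbs_eq_natAbs_iff.1 (Nat.dvd_antisymm (Int.natAbs_dvd_natAbs.2 d1) (Int.natAbs_dvd_natAbs.2 d2))
    with h | h
  · apply hne
    rw [← h] at h1
    have h2 : f.1 * g.2 = f.1 * f.2 := by rw [h1]; ring
    exact Prod.ext h (mul_left_cancel₀ f0 h2).symm
  · have h3 : g.1 = -f.1 := by rw [h]; ring
    rw [h3] at h1
    have h2 : f.1 * g.2 = f.1 * (-f.2) := by rw [h1]; ring
    have h4 := mul_left_cancel₀ f0 h2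
    have h5 : (g.1 : ℝ) = -f.1 := by exact_mod_cast h3
    have h6 : (g.2 : ℝ) = -f.2 := by exact_mod_cast h4
    rw [h5, h6] at pg
    linarith

open Classical in
theorem main_pairs (hS : StmH) (k : ℕ) (hk : 1 ≤ k) (ε : ℝ) (hε : 0 < ε) :
    ∃ (K : ℝ) (C : ℕ), 0 < K ∧ ∀ A : ℕ, ∀ᶠ N : ℕ in atTop, ∀ F : Finset (ℤ × ℤ),
    (∀ f ∈ F, Adm A N f) → K * Real.log (Real.log N) ≤ F.card →
    (1 - ε) * (F.card.choose (k + 1)) ≤ ∑ T ∈ F.powersetCard (k + 1), BH T ∧
    (share k - ε) * ∑ T ∈ F.powersetCard (k + 1), BH T ≤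
      ∑ T ∈ (F.powersetCard (k + 1)).filter (GoodP C N), BH T := by
  set e : ℝ := min ε (share k) with he
  have he0 : 0 < e := lt_min hε (share_pos k)
  obtain ⟨n0, z0, C, hcls⟩ := clsH hS k (e / 4) (by positivity)
  obtain ⟨K, hK, H⟩ := mass k hk (share k) (share_pos k) (share_le k) e he0 (min_le_right _ _) n0 z0
  refine ⟨3 * K, C, by positivity, fun A => ?_⟩
  have hev := (Real.tendsto_log_atTop.comp
    (Real.tendsto_log_atTop.comp tendsto_natCast_atTop_atTop)).eventually_ge_atTop (1 : ℝ)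
  filter_upwards [hcls A, eventually_ge_atTop (max A 16), hev] with N hN hNA hlog F hF hcard
  simp only [Function.comp_apply] at hlog
  have hN16 : 16 ≤ N := (le_max_right _ _).trans hNA
  have hNA' : A ≤ N := (le_max_left _ _).trans hNA
  have hN16r : (16 : ℝ) ≤ N := by exact_mod_cast hN16
  have hNAr : (A : ℝ) ≤ N := by exact_mod_cast hNA'
  have hll : 1 + Real.log (Real.log (2 * N)) ≤ 3 * Real.log (Real.log N) := by
    have h3 : Real.log (2 * N) ≤ 2 * Real.log N := by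
      rw [Real.log_mul (by norm_num) (by positivity)]
      have : Real.log 2 ≤ Real.log N := Real.log_le_log (by norm_num) (by linarith)
      linarith
    have hlogN : 0 < Real.log N := Real.log_pos (by linarith)
    have h4 : Real.log (Real.log (2 * N)) ≤ Real.log 2 + Real.log (Real.log N) := by
      rw [← Real.log_mul (by norm_num) hlogN.ne']
      exact Real.log_le_log (Real.log_pos (by linarith)) h3
    have h5 : Real.log 2 ≤ 1 := by
      have := Real.log_two_lt_d9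
      linarith
    linarith
  have hy : ∀ f ∈ F, 0 < f.1 * ((N : ℝ) / 4) + f.2 := by
    intro f hf
    have h3 := (hF f hf).2.2.2.2 ((N : ℝ) / 4) (by linarith) (by linarith)
    have : (0 : ℝ) < N / 24 := by linarith
    linarith
  have hfin := H (2 * N) F (GoodP C N) (by linarith)
    (by
      intro f hf
      obtain ⟨g1, g2, g3, g5, -⟩ := hF f hf
      refine ⟨g1, g5, ?_, ?_⟩
      · have h3 : ((|f.1| : ℤ) : ℝ) ≤ ((A : ℤ) : ℝ) := by exact_mod_cast g2
        push_cast at h3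
        linarith
      · have h3 : ((|f.2| : ℤ) : ℝ) ≤ (((N : ℤ) : ℤ) : ℝ) := by exact_mod_cast g3
        push_cast at h3
        linarith)
    (fun f hf g hg hne => nprop (hF f hf).2.2.2.1 (hF g hg).2.2.2.1 (hF f hf).1 (hy f hf) (hy g hg) hne)
    (by
      calc K * (1 + Real.log (Real.log (2 * N))) ≤ K * (3 * Real.log (Real.log N)) :=
            mul_le_mul_of_nonneg_left hll hK.le
        _ = 3 * K * Real.log (Real.log N) := by ring
        _ ≤ F.card := hcard)
    (by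
      intro z hz n hn
      have hsv : ∀ f ∈ sv z F n, f ∈ F ∧ ∀ p ∈ (z + 1).primesBelow, ¬ (p : ℤ) ∣ f.1 * (n : ℤ) + f.2 := by
        intro f hf
        unfold sv at hf
        rw [mem_filter] at hf
        exact hf
      exact hN z hz (sv z F n) n (fun f hf => hF f (hsv f hf).1) (fun f hf => (hsv f hf).2) hn)
  have heε : e ≤ ε := min_le_left _ _
  refine ⟨?_, ?_⟩
  · refine le_trans ?_ hfin.1
    apply mul_le_mul_of_nonneg_right (by linarith) (Nat.cast_nonneg _)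
  · refine le_trans ?_ hfin.2
    apply mul_le_mul_of_nonneg_right (by linarith)
    rcases le_or_gt e 1 with h3 | h3
    · exact le_trans (mul_nonneg (by linarith) (Nat.cast_nonneg _)) hfin.1
    · have := min_le_right ε (share k)
      have h4 := share_le k
      linarith

/-- the pair of coefficients -/
def phi (f : ℤ[X]) : ℤ × ℤ := (f.coeff 1, f.coeff 0)

/-- linear and irreducible -/
def Lin (f : ℤ[X]) : Prop := f.natDegree = 1 ∧ Irreducible f

lemma Lin.form {f : ℤ[X]} (h : Lin f) : f = C (f.coeff 1) * X + C (f.coeff 0) :=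
  Polynomial.eq_X_add_C_of_natDegree_le_one h.1.le

lemma Lin.eval {f : ℤ[X]} (h : Lin f) (n : ℤ) : f.eval n = (phi f).1 * n + (phi f).2 := by
  conv_lhs => rw [h.form]
  simp [phi]

lemma Lin.ne {f : ℤ[X]} (h : Lin f) : (phi f).1 ≠ 0 := by
  have h1 : f.leadingCoeff ≠ 0 := by
    intro h0
    rw [leadingCoeff_eq_zero] at h0
    have := h.1
    rw [h0, natDegree_zero] at this
    omega
  unfold Polynomial.leadingCoeff at h1
  rw [h.1] at h1
  exact h1

lemma Lin.cop {f : ℤ[X]} (h : Lin f) : IsCoprime (phi f).1 (phi f).2 := by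
  have hprim := h.2.isPrimitive (by rw [h.1]; exact one_ne_zero)
  rw [Int.isCoprime_iff_gcd_eq_one]
  have h1 : C ((Int.gcd (f.coeff 1) (f.coeff 0) : ℕ) : ℤ) ∣ f := by
    rw [Polynomial.C_dvd_iff_dvd_coeff]
    intro i
    match i with
    | 0 => exact Int.gcd_dvd_right _ _
    | 1 => exact Int.gcd_dvd_left _ _
    | (j + 2) =>
      have h5 : f.coeff (j + 2) = 0 := Polynomial.coeff_eq_zero_of_natDegree_lt (by rw [h.1]; omega)
      rw [h5]
      exact dvd_zero _
  have h2 := hprim _ h1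
  have h3 := Int.isUnit_iff_natAbs_eq.1 h2
  simpa [phi] using h3

lemma phi_inj {f g : ℤ[X]} (hf : Lin f) (hg : Lin g) (h : phi f = phi g) : f = g := by
  rw [hf.form, hg.form]
  unfold phi at h
  rw [Prod.mk.injEq] at h
  rw [h.1, h.2]

/-- number of residues mod `p` at which the product of the members of `F` vanishes -/
noncomputable def omega (F : Finset ℤ[X]) (p : ℕ) : ℕ :=
  ((range p).filter (fun n : ℕ => (p : ℤ) ∣ ∏ f ∈ F, f.eval (n : ℤ))).card

/-- the constant `C_F` -/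
noncomputable def CF (F : Finset ℤ[X]) : ℝ :=
  ∏' p : Nat.Primes, (1 - (omega F p : ℝ) / (p : ℕ)) / (1 - 1 / ((p : ℕ) : ℝ)) ^ F.card

open Classical in
lemma om_image (F : Finset ℤ[X]) (hF : ∀ f ∈ F, Lin f) {p : ℕ} (hp : p.Prime) : om (F.image phi) p = omega F p := by
  unfold om omega
  congr 1
  apply filter_congr
  intro n _
  rw [Prime.dvd_finsetProd_iff (Nat.prime_iff_prime_int.1 hp)]
  constructor
  · rintro ⟨g, hg, hd⟩
    obtain ⟨f, hf, rfl⟩ := Finset.mem_image.1 hg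
    exact ⟨f, hf, by rw [(hF f hf).eval]; exact hd⟩
  · rintro ⟨f, hf, hd⟩
    exact ⟨phi f, mem_image_of_mem _ hf, by rw [← (hF f hf).eval]; exact hd⟩

open Classical in
lemma card_phi (F : Finset ℤ[X]) (hF : ∀ f ∈ F, Lin f) : (F.image phi).card = F.card :=
  card_image_of_injOn fun f hf g hg h => phi_inj (hF f hf) (hF g hg) h

open Classical in
lemma sum_phi (𝓕 : Finset ℤ[X]) (hF : ∀ f ∈ 𝓕, Lin f) (r : ℕ) (g : Finset ℤ[X] → ℝ) (g' : Finset (ℤ × ℤ) → ℝ)
    (P : Finset ℤ[X] → Prop) (P' : Finset (ℤ × ℤ) → Prop) (hg : ∀ F ⊆ 𝓕, g F = g' (F.image phi))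
    (hP : ∀ F ⊆ 𝓕, (P F ↔ P' (F.image phi))) :
    ∑ F ∈ (𝓕.powersetCard r).filter P, g F = ∑ T ∈ ((𝓕.image phi).powersetCard r).filter P', g' T := by
  apply sum_nbij (fun F => F.image phi)
  · intro F hFm
    rw [mem_filter, mem_powersetCard] at hFm ⊢
    refine ⟨⟨image_subset_image hFm.1.1, ?_⟩, (hP F hFm.1.1).1 hFm.2⟩
    rw [card_phi F (fun f hf => hF f (hFm.1.1 hf)), hFm.1.2]
  · intro F hFm G hGm h
    rw [mem_coe, mem_filter, mem_powersetCard] at hFm hGm
    have key : ∀ A B : Finset ℤ[X], A ⊆ 𝓕 → B ⊆ 𝓕 → A.image phi = B.image phi → A ⊆ B := by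
      intro A B hA hB hAB f hf
      have h1 : phi f ∈ B.image phi := hAB ▸ mem_image_of_mem _ hf
      obtain ⟨f', hf', he⟩ := Finset.mem_image.1 h1
      rw [← phi_inj (hF f' (hB hf')) (hF f (hA hf)) he]
      exact hf'
    exact Subset.antisymm (key F G hFm.1.1 hGm.1.1 h) (key G F hGm.1.1 hFm.1.1 h.symm)
  · intro T hT
    rw [mem_coe, mem_filter, mem_powersetCard] at hT
    have himg : (𝓕.filter (fun f => phi f ∈ T)).image phi = T := by
      ext x
      constructor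
      · intro hx
        obtain ⟨f, hf, rfl⟩ := Finset.mem_image.1 hx
        exact (mem_filter.1 hf).2
      · intro hx
        obtain ⟨f, hf, rfl⟩ := Finset.mem_image.1 (hT.1.1 hx)
        exact mem_image_of_mem _ (mem_filter.2 ⟨hf, hx⟩)
    refine ⟨𝓕.filter (fun f => phi f ∈ T), ?_, himg⟩
    rw [mem_coe, mem_filter, mem_powersetCard]
    refine ⟨⟨filter_subset _ _, ?_⟩, ?_⟩
    · rw [← card_phi (𝓕.filter (fun f => phi f ∈ T)) (fun f hf => hF f (mem_filter.1 hf).1), himg]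
      exact hT.1.2
    · rw [hP _ (filter_subset _ _), himg]
      exact hT.2
  · intro F hFm
    rw [mem_filter, mem_powersetCard] at hFm
    exact hg F hFm.1.1

open Classical in
lemma CF_eq (F : Finset ℤ[X]) (hF : ∀ f ∈ F, Lin f) : CF F = BH (F.image phi) := by
  unfold CF BH
  congr 1
  funext p
  unfold lc
  rw [om_image F hF p.2, card_phi F hF]

/-- no two members of `F` are equal up to the sign -/
def Indep (F : Finset ℤ[X]) : Prop := ∀ f ∈ F, ∀ g ∈ F, f ≠ -g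

open Classical in
lemma ND_phi (F : Finset ℤ[X]) (hF : ∀ f ∈ F, Lin f) (hI : Indep F) : ND (F.image phi) := by
  apply ND_of
  · intro x hx
    obtain ⟨f, hf, rfl⟩ := Finset.mem_image.1 hx
    exact (hF f hf).ne
  · intro x hx y hy hne h1
    obtain ⟨f, hf, rfl⟩ := Finset.mem_image.1 hx
    obtain ⟨g, hg, rfl⟩ := Finset.mem_image.1 hy
    have d1 : (phi f).1 ∣ (phi g).1 := (hF f hf).cop.dvd_of_dvd_mul_left ⟨(phi g).2, by rw [h1]⟩
    have d2 : (phi g).1 ∣ (phi f).1 := (hF g hg).cop.dvd_of_dvd_mul_right ⟨(phi f).2, by rw [h1]; ring⟩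
    have f0 := (hF f hf).ne
    rcases Int.natAbs_eq_natAbs_iff.1 (Nat.dvd_antisymm (Int.natAbs_dvd_natAbs.2 d1)
      (Int.natAbs_dvd_natAbs.2 d2)) with h | h
    · apply hne
      rw [← h] at h1
      have h2 : (phi f).1 * (phi g).2 = (phi f).1 * (phi f).2 := by rw [h1]; ring
      exact Prod.ext h (mul_left_cancel₀ f0 h2).symm
    · have h3 : (phi g).1 = -(phi f).1 := by rw [h]; ring
      rw [h3] at h1
      have h2 : (phi f).1 * (phi g).2 = (phi f).1 * (-(phi f).2) := by rw [h1]; ring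
      have h4 := mul_left_cancel₀ f0 h2
      apply hI f hf g hg
      rw [(hF f hf).form, (hF g hg).form]
      have e1 : g.coeff 1 = -f.coeff 1 := h3
      have e2 : g.coeff 0 = -f.coeff 0 := h4
      rw [e1, e2]
      simp only [C_neg]
      ring

open Classical in
theorem CF_hasProd (F : Finset ℤ[X]) (hF : ∀ f ∈ F, Lin f) (hI : Indep F) :
    HasProd (fun p : Nat.Primes => (1 - (omega F p : ℝ) / (p : ℕ)) / (1 - 1 / ((p : ℕ) : ℝ)) ^ F.card) (CF F) := by
  have h1 := BH_hasProd (F.image phi) (ND_phi F hF hI) (by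
    intro x hx
    obtain ⟨f, hf, rfl⟩ := Finset.mem_image.1 hx
    exact (hF f hf).cop)
  rw [CF_eq F hF]
  convert h1 using 2 with p
  unfold lc
  rw [om_image F hF p.2, card_phi F hF]

lemma BH_pos (T : Finset (ℤ × ℤ)) (h0 : ND T) (hT : ∀ f ∈ T, IsCoprime f.1 f.2)
    (hadm : ∀ p : ℕ, p.Prime → om T p < p) : 0 < BH T := by
  have hs := Real.summable_log_one_add_of_summable (summable_lc T h0 hT)
  have hs' : Summable (fun p : Nat.Primes => Real.log (lc T p)) := by simpa using hs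
  have hpos : ∀ p : Nat.Primes, 0 < lc T p := by
    intro p
    unfold lc
    have hp0 : (0:ℝ) < (p : ℕ) := by exact_mod_cast p.2.pos
    have hp2 : (2:ℝ) ≤ (p : ℕ) := by exact_mod_cast p.2.two_le
    have h1 : (1:ℝ) / (p : ℕ) ≤ 1 / 2 := one_div_le_one_div_of_le (by norm_num) hp2
    apply div_pos
    · rw [sub_pos, div_lt_one hp0]
      exact_mod_cast hadm p p.2
    · exact pow_pos (by linarith) _
  have := Real.rexp_tsum_eq_tprod hpos hs'
  unfold BH
  rw [← this]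
  exact Real.exp_pos _

open Classical in
theorem CF_pos (F : Finset ℤ[X]) (hF : ∀ f ∈ F, Lin f) (hI : Indep F)
    (hadm : ∀ p : ℕ, p.Prime → omega F p < p) : 0 < CF F := by
  rw [CF_eq F hF]
  apply BH_pos
  · exact ND_phi F hF hI
  · intro x hx
    obtain ⟨f, hf, rfl⟩ := Finset.mem_image.1 hx
    exact (hF f hf).cop
  · intro p hp
    rw [om_image F hF hp]
    exact hadm p hp

/-- the conditions on a linear polynomial at the scale `N` -/
def Admissible (A N : ℕ) (f : ℤ[X]) : Prop :=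
  f.natDegree = 1 ∧ Irreducible f ∧ |f.coeff 1| ≤ A ∧ |f.coeff 0| ≤ N ∧
    ∀ y : ℝ, (N : ℝ) / 16 ≤ y → y ≤ N / 2 → (N : ℝ) / 24 ≤ f.coeff 1 * y + f.coeff 0

/-- the number of `1 ≤ n ≤ N` at which exactly the members of `J` are prime, among the members of `F` -/
noncomputable def patP (F J : Finset ℤ[X]) (N : ℕ) : ℕ :=
  {n : ℕ | 1 ≤ n ∧ n ≤ N ∧ ∀ f ∈ F, (0 < f.eval (n : ℤ) ∧ Prime (f.eval (n : ℤ))) ↔ f ∈ J}.ncard

open Classical in
lemma pat_eq {N : ℕ} (F J : Finset ℤ[X]) (hF : ∀ f ∈ F, Lin f) (hJ : J ⊆ F) :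
    patP F J N = pat (F.image phi) (J.image phi) N := by
  unfold patP pat
  rw [← Set.ncard_coe_finset]
  congr 1
  ext n
  rw [Set.mem_ofPred_eq, mem_coe, mem_filter, mem_Icc]
  have key : ∀ f ∈ F, ((0 < f.eval (n : ℤ) ∧ Prime (f.eval (n : ℤ))) ↔
      ((phi f).1 * (n : ℤ) + (phi f).2).toNat.Prime) := by
    intro f hf
    rw [(hF f hf).eval]
    constructor
    · rintro ⟨h3, h4⟩
      obtain ⟨m, hm⟩ := Int.eq_ofNat_of_zero_le h3.le
      rw [hm] at h4 ⊢
      rw [Int.toNat_natCast]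
      exact Nat.prime_iff_prime_int.2 h4
    · intro h3
      have h4 : 0 < ((phi f).1 * (n : ℤ) + (phi f).2).toNat := h3.pos
      have h5 : 0 < (phi f).1 * (n : ℤ) + (phi f).2 := by omega
      refine ⟨h5, ?_⟩
      have h6 := Nat.prime_iff_prime_int.1 h3
      rwa [Int.toNat_of_nonneg h5.le] at h6
  have key2 : ∀ f ∈ F, (f ∈ J ↔ phi f ∈ J.image phi) := by
    intro f hf
    constructor
    · exact fun h => mem_image_of_mem _ h
    · intro h
      obtain ⟨g, hg, he⟩ := Finset.mem_image.1 h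
      rw [← phi_inj (hF g (hJ hg)) (hF f hf) he]
      exact hg
  constructor
  · rintro ⟨h3, h4, h5⟩
    refine ⟨⟨h3, h4⟩, fun x hx => ?_⟩
    obtain ⟨f, hf, rfl⟩ := Finset.mem_image.1 hx
    rw [← key f hf, ← key2 f hf]
    exact h5 f hf
  · rintro ⟨⟨h3, h4⟩, h5⟩
    refine ⟨h3, h4, fun f hf => ?_⟩
    rw [key f hf, key2 f hf]
    exact h5 _ (mem_image_of_mem _ hf)

open Classical in
theorem main_poly (hS : StmH) (k : ℕ) (hk : 1 ≤ k) (ε : ℝ) (hε : 0 < ε) :
    ∃ (K : ℝ) (C : ℕ), 0 < K ∧ ∀ A : ℕ, ∃ N₀ : ℕ, ∀ N : ℕ, N₀ ≤ N → ∀ 𝓕 : Finset ℤ[X],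
    (∀ f ∈ 𝓕, Admissible A N f) → K * Real.log (Real.log N) ≤ 𝓕.card →
    (1 - ε) * (𝓕.card.choose (k + 1)) ≤ ∑ F ∈ 𝓕.powersetCard (k + 1), CF F ∧
    (share k - ε) * ∑ F ∈ 𝓕.powersetCard (k + 1), CF F ≤
      ∑ F ∈ (𝓕.powersetCard (k + 1)).filter (fun F => ∀ J ⊆ F, (N : ℝ) / Real.log N ^ C ≤ patP F J N), CF F := by
  obtain ⟨K, C, hK, h⟩ := main_pairs hS k hk ε hε
  refine ⟨K, C, hK, fun A => ?_⟩
  obtain ⟨N₀, hN₀⟩ := eventually_atTop.1 (h A)
  refine ⟨N₀, fun N hNN 𝓕 hF hcard => ?_⟩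
  have hN := hN₀ N hNN
  have hLin : ∀ f ∈ 𝓕, Lin f := fun f hf => ⟨(hF f hf).1, (hF f hf).2.1⟩
  have h3 := hN (𝓕.image phi) (by
    intro x hx
    obtain ⟨f, hf, rfl⟩ := Finset.mem_image.1 hx
    exact ⟨(hLin f hf).ne, (hF f hf).2.2.1, (hF f hf).2.2.2.1, (hLin f hf).cop, (hF f hf).2.2.2.2⟩) (by
    rw [card_phi 𝓕 hLin]
    exact hcard)
  rw [card_phi 𝓕 hLin] at h3
  have e1 := sum_phi 𝓕 hLin (k + 1) CF BH (fun _ => True) (fun _ => True)
    (fun F hF' => CF_eq F (fun f hf => hLin f (hF' hf))) (fun _ _ => Iff.rfl)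
  simp only [filter_true] at e1
  have e2 := sum_phi 𝓕 hLin (k + 1) CF BH
    (fun F => ∀ J ⊆ F, (N : ℝ) / Real.log N ^ C ≤ patP F J N) (GoodP C N)
    (fun F hF' => CF_eq F (fun f hf => hLin f (hF' hf))) (by
      intro F hF'
      have hLF : ∀ f ∈ F, Lin f := fun f hf => hLin f (hF' hf)
      unfold GoodP
      constructor
      · intro h4 T hT
        obtain ⟨J, hJF, rfl⟩ := subset_image_iff.1 hT
        have := h4 J hJF
        rw [pat_eq F J hLF hJF] at this
        exact this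
      · intro h4 J hJ
        rw [pat_eq F J hLF hJ]
        exact h4 _ (image_subset_image hJ))
  rw [e1]
  refine ⟨h3.1, h3.2.trans (le_of_eq ?_)⟩
  convert e2.symm

end Pool.Agent.H37EF
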